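import Mathlib

set_option autoImplicit false

/-! The number of score vectors. -/

namespace Pool.Agent.Helper38K9.ST

open Finset

theorem pow_ineq {r D : ℕ} (h : r ≤ D) : (1 + D) ^ r ≤ (1 + r) ^ D := by
  rcases Nat.eq_zero_or_pos D with rfl | hD
  · have : r = 0 := by omega
    subst this; simp
  · have hD' : (0 : ℝ) < D := by exact_mod_cast hD
    have h1 : (1 + (D : ℝ)) ^ ((r : ℝ) / D) ≤ 1 + (r : ℝ) / D * D :=
      rpow_one_add_le_one_add_mul_self (by linarith) (by positivity)
        (by rw [div_le_one hD']; exact_mod_cast h)
    rw [div_mul_cancel₀ _ hD'.ne'] at h1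
    have h2 : ((1 + (D : ℝ)) ^ ((r : ℝ) / D)) ^ D ≤ (1 + (r : ℝ)) ^ D :=
      pow_le_pow_left₀ (by positivity) h1 D
    rw [← Real.rpow_natCast, ← Real.rpow_mul (by positivity), div_mul_cancel₀ _ hD'.ne', Real.rpow_natCast] at h2
    exact_mod_cast h2

variable {ι : Type} [Fintype ι]

open Classical in
/-- the score vector: how many elements have chosen the value `k` -/
noncomputable def score (U : Finset ι) (f g : ι → ℕ) (b : ι → Bool) (k : ℕ) : ℕ :=
  (U.filter (fun u => (if b u = true then f u else g u) = k)).card

theorem scores (U : Finset ι) (f g : ι → ℕ) (hfg : ∀ u ∈ U, f u ≠ g u) (D : ℕ)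
    (hD : ∀ k, ((U.filter (fun u => f u = k ∨ g u = k)).card ≤ D)) :
    (1 + D) ^ U.card ≤ (Set.range (score U f g)).ncard ^ D := by
  classical
  set m : ι → ℕ := fun u => max (f u) (g u) with hm
  obtain ⟨M, hM⟩ : ∃ M : ℕ, ∀ u ∈ U, m u < M := by
    refine ⟨(U.sup m) + 1, fun u hu => ?_⟩
    have := Finset.le_sup (f := m) hu
    omega
  set r : ℕ → ℕ := fun k => (U.filter (fun u => m u = k)).card with hr
  have hrD : ∀ k, r k ≤ D := by
    intro k
    refine le_trans (card_le_card ?_) (hD k)
    intro u hu
    rw [mem_filter] at hu ⊢
    refine ⟨hu.1, ?_⟩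
    rcases le_total (f u) (g u) with h | h
    · right
      have : m u = g u := max_eq_right h
      omega
    · left
      have : m u = f u := max_eq_left h
      omega
  have hA : ∀ k t : ℕ, t ≤ r k → ∃ A : Finset ι, A ⊆ U.filter (fun u => m u = k) ∧ A.card = t :=
    fun k t ht => exists_subset_card_eq ht
  choose! A hA1 hA2 using hA
  -- the orientation
  set bt : (ℕ → ℕ) → ι → Bool := fun t u =>
    if u ∈ A (m u) (t (m u)) then decide (g u ≤ f u) else decide (f u < g u) with hbt
  have val : ∀ t u, (if bt t u = true then f u else g u) = if u ∈ A (m u) (t (m u)) then m u else min (f u) (g u) := by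
    intro t u
    simp only [hbt, hm]
    by_cases h1 : u ∈ A (max (f u) (g u)) (t (max (f u) (g u)))
    · simp only [h1, if_true]
      by_cases h2 : g u ≤ f u
      · simp [h2]
      · have : f u ≤ g u := by omega
        simp [h2, this]
    · simp only [h1, if_false]
      by_cases h2 : f u < g u
      · simp [h2, h2.le]
      · have : g u ≤ f u := by omega
        simp [h2, this]
  have sc : ∀ t : ℕ → ℕ, ∀ k, t k ≤ r k → score U f g (bt t) k = t k +
      (U.filter (fun u => u ∉ A (m u) (t (m u)) ∧ min (f u) (g u) = k)).card := by
    intro t k htk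
    unfold score
    have e1 : U.filter (fun u => (if bt t u = true then f u else g u) = k) =
        A k (t k) ∪ U.filter (fun u => u ∉ A (m u) (t (m u)) ∧ min (f u) (g u) = k) := by
      ext u
      simp only [mem_filter, mem_union]
      rw [val]
      constructor
      · rintro ⟨h1, h2⟩
        by_cases h3 : u ∈ A (m u) (t (m u))
        · rw [if_pos h3] at h2
          left
          rw [← h2]
          exact h3
        · rw [if_neg h3] at h2
          right
          exact ⟨h1, h3, h2⟩
      · rintro (h1 | ⟨h1, h2, h3⟩)
        · have h4 := hA1 k (t k) htk h1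
          rw [mem_filter] at h4
          refine ⟨h4.1, ?_⟩
          rw [h4.2, if_pos h1]
        · exact ⟨h1, by rw [if_neg h2, h3]⟩
    rw [e1, card_union_of_disjoint, hA2 k (t k) htk]
    rw [Finset.disjoint_left]
    intro u h1 h2
    have h4 := hA1 k (t k) htk h1
    rw [mem_filter] at h4 h2
    apply h2.2.1
    rw [h4.2]
    exact h1
  -- the family
  set ex : (Fin M → ℕ) → ℕ → ℕ := fun t k => if h : k < M then t ⟨k, h⟩ else 0 with hex
  set P : Finset (Fin M → ℕ) := Fintype.piFinset (fun k : Fin M => range (r k + 1)) with hP
  have hPle : ∀ t ∈ P, ∀ k, ex t k ≤ r k := by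
    intro t ht k
    rw [hP, Fintype.mem_piFinset] at ht
    simp only [hex]
    by_cases hk : k < M
    · rw [dif_pos hk]
      have := ht ⟨k, hk⟩
      rw [mem_range] at this
      simp only at this
      omega
    · rw [dif_neg hk]; exact Nat.zero_le _
  have inj : Set.InjOn (fun t : Fin M → ℕ => score U f g (bt (ex t))) (P : Set (Fin M → ℕ)) := by
    intro t ht t' ht' heq
    rw [mem_coe] at ht ht'
    simp only at heq
    -- descending induction
    have key : ∀ j : ℕ, ∀ k : ℕ, M ≤ k + j → ex t k = ex t' k := by
      intro j
      induction j with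
      | zero =>
        intro k hk
        simp only [hex]
        rw [dif_neg (by omega), dif_neg (by omega)]
      | succ j ih =>
        intro k hk
        by_cases hk' : M ≤ k + j
        · exact ih k hk'
        · have h1 := congrFun heq k
          rw [sc _ k (hPle t ht k), sc _ k (hPle t' ht' k)] at h1
          have h2 : U.filter (fun u => u ∉ A (m u) (ex t (m u)) ∧ min (f u) (g u) = k) =
              U.filter (fun u => u ∉ A (m u) (ex t' (m u)) ∧ min (f u) (g u) = k) := by
            apply filter_congr
            intro u hu
            by_cases h3 : min (f u) (g u) = k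
            · have h4 : k < m u := by
                have := hfg u hu
                simp only [hm]
                omega
              rw [ih (m u) (by omega)]
            · simp [h3]
          rw [h2] at h1
          omega
    funext k
    have := key M k.1 (by omega)
    simp only [hex, dif_pos k.2] at this
    exact this
  have hfin : (Set.range (score U f g)).Finite := Set.finite_range _
  have h1 : P.card ≤ (Set.range (score U f g)).ncard := by
    rw [← card_image_of_injOn inj, ← Set.ncard_coe_finset]
    apply Set.ncard_le_ncard _ hfin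
    intro s hs
    rw [mem_coe, mem_image] at hs
    obtain ⟨t, _, rfl⟩ := hs
    exact ⟨_, rfl⟩
  have h2 : P.card = ∏ k : Fin M, (1 + r k) := by
    rw [hP, Fintype.card_piFinset]
    apply prod_congr rfl
    intro k _
    rw [card_range, add_comm]
  have h3 : ∑ k : Fin M, r k = U.card := by
    rw [card_eq_sum_card_fiberwise (f := m) (t := range M) (fun u hu => by simpa using hM u hu), Finset.sum_range]
  calc (1 + D) ^ U.card = ∏ k : Fin M, (1 + D) ^ r k := by rw [prod_pow_eq_pow_sum, h3]
    _ ≤ ∏ k : Fin M, (1 + r k) ^ D := prod_le_prod' fun k _ => pow_ineq (hrD k)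
    _ = P.card ^ D := by rw [h2, prod_pow]
    _ ≤ _ := Nat.pow_le_pow_left h1 D

end Pool.Agent.Helper38K9.ST
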