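import Pool.Agent.Helper38K9.ST.Low
import Pool.Agent.Helper38K9.ST.Score

set_option autoImplicit false

/-! Families of spanning trees with movable leaves. -/

namespace Pool.Agent.Helper38K9.ST

open Finset

variable {V : Type} [Fintype V]

open Classical in
/-- the children outside of `U` -/
noncomputable def RT.kidsU (R : RT V) (U : Finset V) (v : V) : Finset V := (R.kids v).filter (fun c => c ∉ U)

theorem RT.mem_kidsU {R : RT V} {U : Finset V} {v c : V} : c ∈ R.kidsU U v ↔ (c ≠ R.r ∧ R.p c = v) ∧ c ∉ U := by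
  simp [RT.kidsU, RT.mem_kids]

/-- a spanning tree with a set `U` of leaves that can be attached to `x u` or to `y u` -/
structure Cfg (G : SimpleGraph V) where
  R : RT V
  U : Finset V
  x : V → V
  y : V → V
  hG : ∀ v, v ≠ R.r → G.Adj v (R.p v)
  hUr : R.r ∉ U
  hUl : ∀ v, v ≠ R.r → R.p v ∉ U
  hx : ∀ u ∈ U, G.Adj u (x u)
  hy : ∀ u ∈ U, G.Adj u (y u)
  sep : ∀ u ∈ U, ∀ u' ∈ U, ∀ z, G.Adj u z → G.Adj u' z → u = u'
  ind : ∀ u ∈ U, ∀ u' ∈ U, ¬ G.Adj u u'
  key : ∀ u ∈ U, R.dep (x u) ≠ R.dep (y u) ∨ (R.kidsU U (x u)).card ≠ (R.kidsU U (y u)).card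

namespace Cfg

variable {G : SimpleGraph V} (C : Cfg G)

/-- the vertex to which `u` is attached -/
def att (b : V → Bool) (u : V) : V := if b u = true then C.x u else C.y u

theorem att_adj (b : V → Bool) {u : V} (hu : u ∈ C.U) : G.Adj u (C.att b u) := by
  unfold att
  split_ifs
  · exact C.hx u hu
  · exact C.hy u hu

theorem att_notMem (b : V → Bool) {u : V} (hu : u ∈ C.U) : C.att b u ∉ C.U := fun h =>
  C.ind u hu _ h (C.att_adj b hu)

theorem att_inj (b : V → Bool) {u u' : V} (hu : u ∈ C.U) (hu' : u' ∈ C.U) (h : C.att b u = C.att b u') : u = u' :=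
  C.sep u hu u' hu' _ (C.att_adj b hu) (h ▸ C.att_adj b hu')

open Classical in
/-- the spanning tree given by the choices `b` -/
noncomputable def tb (b : V → Bool) : RT V where
  r := C.R.r
  p := fun v => if v ∈ C.U then C.att b v else C.R.p v
  dep := fun v => if v ∈ C.U then C.R.dep (C.att b v) + 1 else C.R.dep v
  p_r := by rw [if_neg C.hUr, C.R.p_r]
  dep_r := by rw [if_neg C.hUr, C.R.dep_r]
  dep_p := by
    intro v hv
    by_cases h : v ∈ C.U
    · rw [if_pos h, if_pos h, if_neg (C.att_notMem b h)]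
    · rw [if_neg h, if_neg h, if_neg (C.hUl v hv)]
      exact C.R.dep_p v hv

theorem tb_r (b : V → Bool) : (C.tb b).r = C.R.r := rfl

theorem tb_p_mem (b : V → Bool) {v : V} (h : v ∈ C.U) : (C.tb b).p v = C.att b v := by
  simp [tb, h]

theorem tb_p_not (b : V → Bool) {v : V} (h : v ∉ C.U) : (C.tb b).p v = C.R.p v := by
  simp [tb, h]

theorem tb_dep_not (b : V → Bool) {v : V} (h : v ∉ C.U) : (C.tb b).dep v = C.R.dep v := by
  simp [tb, h]

theorem p_not {v : V} (h : v ∉ C.U) : C.R.p v ∉ C.U := by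
  by_cases hv : v = C.R.r
  · rw [hv, C.R.p_r]; exact C.hUr
  · exact C.hUl v hv

theorem iter_not {v : V} (h : v ∉ C.U) (k : ℕ) : C.R.p^[k] v ∉ C.U := by
  induction k with
  | zero => exact h
  | succ k ih => rw [Function.iterate_succ_apply']; exact C.p_not ih

theorem tb_iter (b : V → Bool) {v : V} (h : v ∉ C.U) (k : ℕ) : (C.tb b).p^[k] v = C.R.p^[k] v := by
  induction k with
  | zero => rfl
  | succ k ih => rw [Function.iterate_succ_apply', ih, Function.iterate_succ_apply', C.tb_p_not b (C.iter_not h k)]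

theorem tb_anc (b : V → Bool) {a v : V} (h : v ∉ C.U) : (C.tb b).Anc a v ↔ C.R.Anc a v := by
  unfold RT.Anc
  simp only [C.tb_iter b h]

theorem tb_low (b : V → Bool) (B : Set V) {v w : V} (h : v ∉ C.U) : (C.tb b).Low B v w ↔ C.R.Low B v w := by
  unfold RT.Low
  simp only [C.tb_iter b h]

theorem tb_le (b : V → Bool) : (C.tb b).gr ≤ G := by
  have key : ∀ v w : V, v ≠ C.R.r → (C.tb b).p v = w → G.Adj v w := by
    intro v w hv h
    by_cases h1 : v ∈ C.U
    · rw [C.tb_p_mem b h1] at h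
      rw [← h]; exact C.att_adj b h1
    · rw [C.tb_p_not b h1] at h
      rw [← h]; exact C.hG v hv
  intro v w h
  rcases h with ⟨h1, h2⟩ | ⟨h1, h2⟩
  · exact key v w h1 h2
  · exact (key w v h1 h2).symm

theorem tb_kids_mem (b : V → Bool) {v : V} (h : v ∈ C.U) : ((C.tb b).kids v).card = 0 := by
  rw [card_eq_zero, eq_empty_iff_forall_notMem]
  intro c hc
  rw [RT.mem_kids] at hc
  by_cases h1 : c ∈ C.U
  · rw [C.tb_p_mem b h1] at hc
    exact C.att_notMem b h1 (hc.2 ▸ h)
  · rw [C.tb_p_not b h1] at hc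
    exact C.hUl c hc.1 (hc.2 ▸ h)

open Classical in
theorem tb_kids_not (b : V → Bool) {v : V} (_h : v ∉ C.U) :
    ((C.tb b).kids v).card = (C.R.kidsU C.U v).card + (C.U.filter (fun u => C.att b u = v)).card := by
  have e : (C.tb b).kids v = C.R.kidsU C.U v ∪ C.U.filter (fun u => C.att b u = v) := by
    ext c
    rw [RT.mem_kids, mem_union, RT.mem_kidsU, mem_filter]
    by_cases h1 : c ∈ C.U
    · rw [C.tb_p_mem b h1]
      constructor
      · rintro ⟨-, h2⟩
        exact Or.inr ⟨h1, h2⟩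
      · rintro (⟨-, h2⟩ | ⟨-, h2⟩)
        · exact absurd h1 h2
        · exact ⟨fun h3 => C.hUr (h3 ▸ h1), h2⟩
    · rw [C.tb_p_not b h1, tb_r]
      constructor
      · intro h2
        exact Or.inl ⟨h2, h1⟩
      · rintro (⟨h2, -⟩ | ⟨h2, -⟩)
        · exact h2
        · exact absurd h2 h1
  rw [e, card_union_of_disjoint]
  rw [Finset.disjoint_left]
  intro c h1 h2
  rw [RT.mem_kidsU] at h1
  rw [mem_filter] at h2
  exact h1.2 h2.1

open Classical in
theorem att_card (b : V → Bool) (v : V) : (C.U.filter (fun u => C.att b u = v)).card ≤ 1 := by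
  rw [card_le_one]
  intro u hu u' hu'
  rw [mem_filter] at hu hu'
  exact C.att_inj b hu.1 hu'.1 (hu.2.trans hu'.2.symm)

open Classical in
/-- the number of the vertices outside of `U` below `a` -/
noncomputable def sz (a : V) : ℕ := (univ.filter (fun w => w ∉ C.U ∧ C.R.Anc a w)).card

theorem sz_le (b : V → Bool) (a : V) : C.sz a ≤ ((C.tb b).sub a).card := by
  classical
  apply card_le_card
  intro w hw
  rw [mem_filter] at hw
  rw [RT.mem_sub, C.tb_anc b hw.2.1]
  exact hw.2.2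

/-- the vertices above at least `K` vertices outside of `U` -/
def B (K : ℕ) : Set V := {v | v ∉ C.U ∧ K ≤ C.sz v}

theorem B_up {K : ℕ} {a v : V} (h : C.R.Anc a v) (hv : v ∈ C.B K) : a ∈ C.B K := by
  classical
  obtain ⟨k, hk⟩ := h
  refine ⟨hk ▸ C.iter_not hv.1 k, hv.2.trans ?_⟩
  apply card_le_card
  intro w hw
  rw [mem_filter] at hw ⊢
  exact ⟨hw.1, hw.2.1, RT.Anc.trans ⟨k, hk⟩ hw.2.2⟩

/-- the size of a cell -/
theorem cell_card {d K : ℕ} (hd : 1 ≤ d) (hK : 1 ≤ K) (hdeg : ∀ v, (C.R.kids v).card ≤ d) (w : V)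
    (A : Finset V) (hA : ∀ v ∈ A, v ∉ C.U ∧ C.R.Low (C.B K) v w) : A.card ≤ d * K := by
  classical
  have h1 : A ⊆ {w} ∪ ((C.R.kids w).filter (fun c => C.sz c < K)).biUnion
      (fun c => univ.filter (fun v => v ∉ C.U ∧ C.R.Anc c v)) := by
    intro v hv
    obtain ⟨h2, h3⟩ := hA v hv
    rw [mem_union, mem_singleton]
    by_cases hne : w = v
    · exact Or.inl hne.symm
    · right
      obtain ⟨c, c1, c2, c3, c4⟩ := h3.child hne
      rw [mem_biUnion]
      refine ⟨c, ?_, ?_⟩
      · rw [mem_filter, RT.mem_kids]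
        refine ⟨⟨c1, c2⟩, ?_⟩
        obtain ⟨k, hk⟩ := c3
        by_contra hcon
        exact c4 ⟨hk ▸ C.iter_not h2 k, by omega⟩
      · rw [mem_filter]
        exact ⟨mem_univ _, h2, c3⟩
  have h2 := card_le_card h1
  have h3 := card_union_le {w} (((C.R.kids w).filter (fun c => C.sz c < K)).biUnion
      (fun c => univ.filter (fun v => v ∉ C.U ∧ C.R.Anc c v)))
  have h4 : (((C.R.kids w).filter (fun c => C.sz c < K)).biUnion
      (fun c => univ.filter (fun v => v ∉ C.U ∧ C.R.Anc c v))).card ≤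
      ((C.R.kids w).filter (fun c => C.sz c < K)).card * (K - 1) := by
    apply card_biUnion_le_card_mul
    intro c hc
    rw [mem_filter] at hc
    have := hc.2
    unfold sz at this
    omega
  have h5 : ((C.R.kids w).filter (fun c => C.sz c < K)).card ≤ d := (card_le_card (filter_subset _ _)).trans (hdeg w)
  have h6 := Nat.mul_le_mul_right (K - 1) h5
  rw [card_singleton] at h3
  have h7 : d * (K - 1) + 1 ≤ d * K := by
    obtain ⟨K', rfl⟩ : ∃ K', K = K' + 1 := ⟨K - 1, by omega⟩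
    rw [Nat.add_sub_cancel, mul_add]
    omega
  omega

end Cfg

end Pool.Agent.Helper38K9.ST
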