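import Pool.Agent.Helper38K9.ST.Good
import Pool.Agent.Helper38K9.ST.Cfg

set_option autoImplicit false

/-! The number of the good leaves. -/

namespace Pool.Agent.Helper38K9.ST

open Finset

variable {V : Type} [Fintype V] {G : SimpleGraph V} {d : ℕ}

namespace Mx

variable (M : Mx G d)

open Classical in
noncomputable def leaves : Finset V := univ.filter M.Leaf
open Classical in
noncomputable def good : Finset V := univ.filter M.Good
open Classical in
noncomputable def bad1 : Finset V := univ.filter (fun u => M.Leaf u ∧ ¬ M.Good u ∧ (M.R.kids (M.R.p u)).card = 1)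
open Classical in
noncomputable def bad2 : Finset V := univ.filter (fun u => M.Leaf u ∧ ¬ M.Good u ∧ (M.R.kids (M.R.p u)).card ≠ 1)

theorem kids_disj {s s' : V} (h : s ≠ s') : Disjoint (M.R.kids s) (M.R.kids s') := by
  rw [Finset.disjoint_left]
  intro z hz hz'
  rw [RT.mem_kids] at hz hz'
  exact h (hz.2.symm.trans hz'.2)

theorem exists_kid {s : V} (hs : s ∈ M.S) : ∃ z, z ∈ M.R.kids s := by
  have h1 := M.kids_S hs
  have h2 := M.hd
  exact card_pos.1 (by omega)

theorem bad1_le : M.bad1.card ≤ M.good.card := by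
  classical
  have hb : ∀ u, u ∈ M.bad1 ↔ M.Leaf u ∧ ¬ M.Good u ∧ (M.R.kids (M.R.p u)).card = 1 := fun u => by simp [bad1]
  set S1 : Finset V := M.bad1.image M.sg with hS1
  have hS1S : ∀ s ∈ S1, s ∈ M.S := by
    intro s hs
    rw [hS1, mem_image] at hs
    obtain ⟨u, hu, rfl⟩ := hs
    rw [hb] at hu
    exact (M.sg_spec hu.1 hu.2.1).1
  have h1 : M.bad1.card ≤ ∑ s ∈ S1, (M.R.kids s).card := by
    rw [card_eq_sum_card_fiberwise (f := M.sg) (t := S1) (fun u hu => mem_image_of_mem _ hu)]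
    apply sum_le_sum
    intro s hs
    obtain ⟨z, hz⟩ := M.exists_kid (hS1S s hs)
    have h2 := M.bad_fiber (M.bad1.filter (fun u => M.sg u = s)) s z (hS1S s hs) hz (by
      intro u hu
      rw [mem_filter, hb] at hu
      exact ⟨hu.1.1, hu.1.2.1, hu.2⟩)
    rw [M.kids_S (hS1S s hs)]
    omega
  refine h1.trans ?_
  rw [← card_biUnion (fun s _ s' _ h => M.kids_disj h)]
  apply card_le_card
  intro z hz
  rw [mem_biUnion] at hz
  obtain ⟨s, hs, hz⟩ := hz
  rw [hS1, mem_image] at hs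
  obtain ⟨u, hu, rfl⟩ := hs
  rw [hb] at hu
  obtain ⟨k1, k2, k3, k4, k5⟩ := M.bad_keys hu.1 hu.2.1 hz
  have hz' := hz
  rw [RT.mem_kids] at hz'
  have h2 : M.R.kids z = ∅ := by
    rw [← card_eq_zero]
    omega
  unfold good
  rw [mem_filter]
  refine ⟨mem_univ _, ⟨hz'.1, h2⟩, M.sg u, u, ?_, k1.symm, Or.inl ?_⟩
  · have := M.adj_p hz'.1
    rwa [hz'.2] at this
  · have := M.R.dep_p z hz'.1
    rw [hz'.2] at this
    omega

theorem bad2_le : M.bad2.card ≤ (d - 2) * M.S.card := by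
  classical
  have hb : ∀ u, u ∈ M.bad2 ↔ M.Leaf u ∧ ¬ M.Good u ∧ (M.R.kids (M.R.p u)).card ≠ 1 := fun u => by simp [bad2]
  apply card_le_mul_card_image_of_maps_to (f := M.sg)
  · intro u hu
    rw [hb] at hu
    exact (M.sg_spec hu.1 hu.2.1).1
  · intro s hs
    rcases Finset.eq_empty_or_nonempty (M.bad2.filter (fun u => M.sg u = s)) with h0 | ⟨u, hu⟩
    · rw [h0, card_empty]; exact Nat.zero_le _
    · obtain ⟨z, hz⟩ := M.exists_kid hs
      have h2 := M.bad_fiber (M.bad2.filter (fun u => M.sg u = s)) s z hs hz (by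
        intro u hu
        rw [mem_filter, hb] at hu
        exact ⟨hu.1.1, hu.1.2.1, hu.2⟩)
      rw [mem_filter, hb] at hu
      obtain ⟨-, -, -, k4, -⟩ := M.bad_keys hu.1.1 hu.1.2.1 (by rw [hu.2]; exact hz)
      have h3 := hu.1.2.2
      omega

/-- a leaf formula -/
theorem leaf_sum (T : Finset V) : 1 + ∑ v ∈ T, ((M.R.kids v).card - 1) ≤ M.leaves.card := by
  classical
  have h1 := M.R.sum_kids
  have h2 : ∑ v : V, (M.R.kids v).card = ∑ v : V, ((M.R.kids v).card - 1) +
      (univ.filter (fun v => ¬ M.R.kids v = ∅)).card := by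
    rw [card_filter, ← sum_add_distrib]
    apply sum_congr rfl
    intro v _
    by_cases h : M.R.kids v = ∅
    · rw [h]; simp
    · rw [if_pos h]
      have := card_pos.2 (nonempty_iff_ne_empty.2 h)
      omega
  have h3 : (univ.filter (fun v => M.R.kids v = ∅)).card + (univ.filter (fun v => ¬ M.R.kids v = ∅)).card
      = Fintype.card V := by
    rw [card_filter_add_card_filter_not, card_univ]
  have h4 : (univ.filter (fun v => M.R.kids v = ∅)) ⊆ M.leaves := by
    intro v hv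
    rw [mem_filter] at hv
    unfold leaves
    rw [mem_filter]
    refine ⟨mem_univ _, ?_, hv.2⟩
    rintro rfl
    -- the root has a child
    have h5 := M.hreg M.R.r
    have h6 := M.hd
    obtain ⟨w, hw⟩ := card_pos.1 (show 0 < (N G M.R.r).card by omega)
    rw [mem_N] at hw
    obtain ⟨c, c1, c2, -⟩ := (RT.Anc.root (R := M.R) w).child hw.ne
    have : c ∈ M.R.kids M.R.r := by rw [RT.mem_kids]; exact ⟨c1, c2⟩
    rw [hv.2] at this
    exact notMem_empty _ this
  have h5 := card_le_card h4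
  have h6 : ∑ v ∈ T, ((M.R.kids v).card - 1) ≤ ∑ v : V, ((M.R.kids v).card - 1) :=
    sum_le_sum_of_subset (subset_univ _)
  omega

theorem good_card : M.S.card ≤ 4 * M.good.card := by
  classical
  have hb : ∀ u, u ∈ M.bad2 ↔ M.Leaf u ∧ ¬ M.Good u ∧ (M.R.kids (M.R.p u)).card ≠ 1 := fun u => by simp [bad2]
  set P : Finset V := M.bad2.image M.R.p with hP
  have hPk : ∀ p ∈ P, 2 ≤ (M.R.kids p).card := by
    intro p hp
    rw [hP, mem_image] at hp
    obtain ⟨u, hu, rfl⟩ := hp
    rw [hb] at hu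
    have h1 : 0 < (M.R.kids (M.R.p u)).card := card_pos.2 ⟨u, by rw [RT.mem_kids]; exact ⟨hu.1.1, rfl⟩⟩
    have := hu.2.2
    omega
  have h1 : M.bad2.card ≤ ∑ p ∈ P, (M.R.kids p).card := by
    rw [card_eq_sum_card_fiberwise (f := M.R.p) (t := P) (fun u hu => mem_image_of_mem _ hu)]
    apply sum_le_sum
    intro p _
    apply card_le_card
    intro u hu
    rw [mem_filter, hb] at hu
    rw [RT.mem_kids]
    exact ⟨hu.1.1.1, hu.2⟩
  have h2 : ∑ p ∈ P, (M.R.kids p).card ≤ 2 * ∑ p ∈ P, ((M.R.kids p).card - 1) := by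
    rw [mul_sum]
    apply sum_le_sum
    intro p hp
    have := hPk p hp
    omega
  have hdis : Disjoint M.S P := by
    rw [Finset.disjoint_left]
    intro s hs hsP
    rw [hP, mem_image] at hsP
    obtain ⟨u, hu, rfl⟩ := hsP
    rw [hb] at hu
    obtain ⟨hs1, -⟩ := M.sg_spec hu.1 hu.2.1
    obtain ⟨z, hz⟩ := M.exists_kid hs1
    obtain ⟨k1, k2, k3, k4, k5⟩ := M.bad_keys hu.1 hu.2.1 hz
    rw [RT.mem_kids] at hz
    have e1 : near G 1 (M.R.p u) u := (near.adj (M.adj_p hu.1.1)).symm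
    have e2 : near G 1 u z := near.adj k1
    have e3 : near G 1 z (M.R.p z) := near.adj (M.adj_p hz.1)
    have h3 := M.hS _ hs _ hs1 (hz.2 ▸ ((e1.trans e2).trans e3).mono (by omega))
    have h4 := M.R.dep_p z hz.1
    rw [hz.2, ← h3] at h4
    omega
  have h3 := M.leaf_sum (M.S ∪ P)
  rw [sum_union hdis] at h3
  have h4 : ∑ s ∈ M.S, ((M.R.kids s).card - 1) = M.S.card * (d - 2) := by
    rw [sum_congr rfl (fun s hs => by rw [M.kids_S hs, Nat.sub_sub]), sum_const, smul_eq_mul]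
  rw [h4] at h3
  have h5 : M.leaves.card ≤ M.good.card + M.bad1.card + M.bad2.card := by
    have : M.leaves ⊆ (M.good ∪ M.bad1) ∪ M.bad2 := by
      intro u hu
      unfold leaves at hu
      rw [mem_filter] at hu
      unfold good bad1 bad2
      rw [mem_union, mem_union, mem_filter, mem_filter, mem_filter]
      by_cases h1 : M.Good u
      · exact Or.inl (Or.inl ⟨mem_univ _, h1⟩)
      · by_cases h2 : (M.R.kids (M.R.p u)).card = 1
        · exact Or.inl (Or.inr ⟨mem_univ _, hu.2, h1, h2⟩)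
        · exact Or.inr ⟨mem_univ _, hu.2, h1, h2⟩
    refine (card_le_card this).trans ((card_union_le _ _).trans ?_)
    exact Nat.add_le_add_right (card_union_le _ _) _
  have h6 := M.bad1_le
  have h7 := M.bad2_le
  have h8 : M.S.card ≤ (d - 2) * M.S.card := Nat.le_mul_of_pos_left _ (by have := M.hd; omega)
  rw [mul_comm M.S.card] at h3
  omega

end Mx

/-- the extremal tree exists -/
theorem exists_Mx [Nonempty V] (hd : 3 ≤ d) (hconn : G.Connected) (hreg : ∀ v, (N G v).card = d) :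
    ∃ M : Mx G d, Fintype.card V ≤ M.S.card * (d + 1) ^ 4 := by
  classical
  obtain ⟨S, -, hS, hcard⟩ := exists_sep (G := G) (d := d) (fun v => (hreg v).le) 4 univ
  rw [card_univ] at hcard
  have hSpos : 0 < S.card := by
    rcases Nat.eq_zero_or_pos S.card with h | h
    · rw [h, zero_mul] at hcard
      have := Fintype.card_pos (α := V)
      omega
    · exact h
  obtain ⟨s0, hs0⟩ := card_pos.1 hSpos
  obtain ⟨r, hr⟩ := card_pos.1 (show 0 < (N G s0).card by rw [hreg]; omega)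
  rw [mem_N] at hr
  have hrS : r ∉ S := by
    intro h
    have := hS s0 hs0 r h ((near.adj hr).mono (by omega))
    exact hr.ne this
  obtain ⟨T, hT1, hT2, hT3⟩ := hconn.exists_isTree_le_of_le_of_isAcyclic
    (H := star G S) (fun v w h => h.1) (star_acyclic hS)
  obtain ⟨R0, hR0, hR0g⟩ := exists_RT hT3 r
  obtain ⟨R, hR, hmax⟩ := Set.exists_max_image
    {R : RT V | R.r = r ∧ R.gr ≤ G ∧ ∀ s ∈ S, ∀ w, G.Adj s w → R.gr.Adj s w}
    (fun R => ∑ v, R.dep v) (Set.toFinite _)
    ⟨R0, hR0, by rw [hR0g]; exact hT2, fun s hs w h => by rw [hR0g]; exact hT1 ⟨h, Or.inl hs⟩⟩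
  refine ⟨⟨R, S, hd, hreg, hR.2.1, hS, hR.1 ▸ hrS, hR.2.2, ?_⟩, hcard⟩
  intro R' h1 h2 h3
  exact hmax R' ⟨h1.trans hR.1, h2, h3⟩

/-- the family of spanning trees -/
theorem exists_Cfg [Nonempty V] (hd : 3 ≤ d) (hconn : G.Connected) (hreg : ∀ v, (N G v).card = d) :
    ∃ C : Cfg G, Fintype.card V ≤ C.U.card * (4 * (d + 1) ^ 6) := by
  classical
  obtain ⟨M, hM⟩ := exists_Mx hd hconn hreg
  obtain ⟨U, hUg, hsep, hcard⟩ := exists_sep (G := G) (d := d) (fun v => (hreg v).le) 2 M.good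
  have hgood : ∀ u ∈ U, M.Good u := by
    intro u hu
    have := hUg hu
    unfold Mx.good at this
    rw [mem_filter] at this
    exact this.2
  choose! x y hx hy hxy using fun u (hu : M.Good u) => hu.2
  have hsep' : ∀ u ∈ U, ∀ u' ∈ U, ∀ z, G.Adj u z → G.Adj u' z → u = u' := by
    intro u hu u' hu' z h h'
    exact hsep u hu u' hu' ((near.adj h).trans (near.adj h').symm)
  have hkc : ∀ u ∈ U, ∀ z, G.Adj u z → (M.R.kidsU U z).card = M.kc u z := by
    intro u hu z hz
    unfold Mx.kc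
    congr 1
    ext c
    rw [RT.mem_kidsU, mem_erase, RT.mem_kids]
    constructor
    · rintro ⟨h1, h2⟩
      exact ⟨fun h => h2 (h ▸ hu), h1⟩
    · rintro ⟨h1, h2⟩
      refine ⟨h2, fun h3 => h1 ?_⟩
      have h4 := M.adj_p h2.1
      rw [h2.2] at h4
      exact hsep' c h3 u hu z h4 hz
  refine ⟨⟨M.R, U, x, y, fun v hv => M.adj_p hv, fun h => (hgood _ h).1.1 rfl, ?_,
    fun u hu => hx u (hgood u hu), fun u hu => hy u (hgood u hu), hsep', ?_, ?_⟩, ?_⟩
  · intro v hv h
    have h1 : v ∈ M.R.kids (M.R.p v) := by rw [RT.mem_kids]; exact ⟨hv, rfl⟩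
    rw [(hgood _ h).1.2] at h1
    exact notMem_empty _ h1
  · intro u hu u' hu' h
    have := hsep u hu u' hu' ((near.adj h).mono (by omega))
    exact h.ne this
  · intro u hu
    rw [hkc u hu _ (hx u (hgood u hu)), hkc u hu _ (hy u (hgood u hu))]
    exact hxy u (hgood u hu)
  · have h1 := M.good_card
    calc Fintype.card V ≤ M.S.card * (d + 1) ^ 4 := hM
      _ ≤ (4 * M.good.card) * (d + 1) ^ 4 := Nat.mul_le_mul_right _ h1
      _ ≤ (4 * (U.card * (d + 1) ^ 2)) * (d + 1) ^ 4 := by gcongr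
      _ = U.card * (4 * (d + 1) ^ 6) := by ring

end Pool.Agent.Helper38K9.ST
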