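import Pool.Agent.Helper38K9.ST.Good

set_option autoImplicit false

/-! Two non-isomorphic spanning trees. -/

namespace Pool.Agent.Helper38K9.ST

open Finset

variable {V : Type}

open Classical in
/-- the degree, as an integer -/
noncomputable def dg [Fintype V] (T : SimpleGraph V) (v : V) : ℤ := ∑ w, if T.Adj v w then (1 : ℤ) else 0

/-- the sum of the squares of the degrees -/
noncomputable def sq [Fintype V] (T : SimpleGraph V) : ℤ := ∑ v, (dg T v) ^ 2

theorem sq_iso [Fintype V] {T T' : SimpleGraph V} (e : T ≃g T') : sq T = sq T' := by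
  classical
  have h1 : ∀ v, dg T' (e.toEquiv v) = dg T v := by
    intro v
    unfold dg
    rw [← e.toEquiv.sum_comp]
    apply sum_congr rfl
    intro w _
    have : T'.Adj (e.toEquiv v) (e.toEquiv w) ↔ T.Adj v w := e.map_rel_iff
    simp only [this]
  unfold sq
  rw [← e.toEquiv.sum_comp (fun v => dg T' v ^ 2)]
  apply sum_congr rfl
  intro v _
  rw [h1]

theorem sum_dg [Fintype V] (T : SimpleGraph V) : ∑ v, dg T v = 2 * (Nat.card T.edgeSet : ℤ) := by
  classical
  have h1 : ∀ v, dg T v = (T.degree v : ℤ) := by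
    intro v
    unfold dg
    rw [sum_boole, ← SimpleGraph.card_neighborFinset_eq_degree]
    congr 2
    ext w
    simp
  have h2 := T.sum_degrees_eq_twice_card_edges
  rw [sum_congr rfl (fun v _ => h1 v), ← Nat.cast_sum, h2, Nat.card_eq_fintype_card, SimpleGraph.edgeFinset_card]
  push_cast
  rfl

/-- replace the edge `a b` by the edge `u y` -/
def ex (T : SimpleGraph V) (a b u y : V) : SimpleGraph V where
  Adj v w := (T.Adj v w ∧ ¬ ((v = a ∧ w = b) ∨ (v = b ∧ w = a))) ∨
    (u ≠ y ∧ ((v = u ∧ w = y) ∨ (v = y ∧ w = u)))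
  symm := ⟨fun v w h => by
    rcases h with ⟨h1, h2⟩ | ⟨h1, h2⟩
    · exact Or.inl ⟨h1.symm, by tauto⟩
    · exact Or.inr ⟨h1, by tauto⟩⟩
  loopless := ⟨fun v h => by
    rcases h with ⟨h1, -⟩ | ⟨h1, ⟨h2, h3⟩ | ⟨h2, h3⟩⟩
    · exact T.loopless.irrefl v h1
    · exact h1 (h2.symm.trans h3)
    · exact h1 (h3.symm.trans h2)⟩

theorem ind_aux (A P1 P2 Q1 Q2 : Prop) [Decidable A] [Decidable P1] [Decidable P2] [Decidable Q1] [Decidable Q2]
    [Decidable ((A ∧ ¬ (P1 ∨ P2)) ∨ (Q1 ∨ Q2))] (h1 : P1 → A) (h2 : P2 → A) (h3 : Q1 → ¬ A) (h4 : Q2 → ¬ A)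
    (h5 : ¬ (P1 ∧ P2)) (h6 : ¬ (Q1 ∧ Q2)) :
    (if (A ∧ ¬ (P1 ∨ P2)) ∨ (Q1 ∨ Q2) then (1 : ℤ) else 0) = (if A then (1 : ℤ) else 0) +
      (if Q1 then 1 else 0) + (if Q2 then 1 else 0) - (if P1 then 1 else 0) - (if P2 then 1 else 0) := by
  by_cases hA : A
  · have q1 : ¬ Q1 := fun h => h3 h hA
    have q2 : ¬ Q2 := fun h => h4 h hA
    by_cases p1 : P1
    · have p2 : ¬ P2 := fun h => h5 ⟨p1, h⟩
      simp [hA, q1, q2, p1, p2]
    · by_cases p2 : P2
      · simp [hA, q1, q2, p1, p2]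
      · simp [hA, q1, q2, p1, p2]
  · have p1 : ¬ P1 := fun h => hA (h1 h)
    have p2 : ¬ P2 := fun h => hA (h2 h)
    by_cases q1 : Q1
    · have q2 : ¬ Q2 := fun h => h6 ⟨q1, h⟩
      simp [hA, q1, q2, p1, p2]
    · by_cases q2 : Q2
      · simp [hA, q1, q2, p1, p2]
      · simp [hA, q1, q2, p1, p2]

open Classical in
theorem sum_ind [Fintype V] (v a b : V) : ∑ w, (if v = a ∧ w = b then (1 : ℤ) else 0) = if v = a then 1 else 0 := by
  by_cases h : v = a
  · simp [h]
  · simp [h]

open Classical in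
theorem dg_ex [Fintype V] {T : SimpleGraph V} {a b u y : V} (hab : T.Adj a b) (huy : ¬ T.Adj u y) (hne : u ≠ y) (v : V) :
    dg (ex T a b u y) v = dg T v + (if v = u then 1 else 0) + (if v = y then 1 else 0)
      - (if v = a then 1 else 0) - (if v = b then 1 else 0) := by
  have h1 : ∀ w, (if (ex T a b u y).Adj v w then (1 : ℤ) else 0) = (if T.Adj v w then (1 : ℤ) else 0) +
      (if v = u ∧ w = y then 1 else 0) + (if v = y ∧ w = u then 1 else 0) -
      (if v = a ∧ w = b then 1 else 0) - (if v = b ∧ w = a then 1 else 0) := by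
    intro w
    rw [← ind_aux (T.Adj v w) (v = a ∧ w = b) (v = b ∧ w = a) (v = u ∧ w = y) (v = y ∧ w = u)
      (by rintro ⟨rfl, rfl⟩; exact hab) (by rintro ⟨rfl, rfl⟩; exact hab.symm)
      (by rintro ⟨rfl, rfl⟩; exact huy) (by rintro ⟨rfl, rfl⟩ h; exact huy h.symm)
      (by rintro ⟨⟨rfl, rfl⟩, h, -⟩; exact hab.ne h) (by rintro ⟨⟨rfl, rfl⟩, h, -⟩; exact hne h)]
    have e : (ex T a b u y).Adj v w ↔ (T.Adj v w ∧ ¬ ((v = a ∧ w = b) ∨ (v = b ∧ w = a))) ∨
      ((v = u ∧ w = y) ∨ (v = y ∧ w = u)) := by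
      constructor
      · rintro (h | ⟨-, h⟩)
        · exact Or.inl h
        · exact Or.inr h
      · rintro (h | h)
        · exact Or.inl h
        · exact Or.inr ⟨hne, h⟩
    exact if_congr e rfl rfl
  unfold dg
  rw [sum_congr rfl (fun w _ => h1 w), sum_sub_distrib, sum_sub_distrib, sum_add_distrib, sum_add_distrib,
    sum_ind, sum_ind, sum_ind, sum_ind]

theorem ex_card [Fintype V] {T : SimpleGraph V} {a b u y : V} (hab : T.Adj a b) (huy : ¬ T.Adj u y) (hne : u ≠ y) :
    Nat.card (ex T a b u y).edgeSet = Nat.card T.edgeSet := by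
  classical
  have h1 := sum_dg (ex T a b u y)
  have h2 := sum_dg T
  rw [sum_congr rfl (fun v _ => dg_ex hab huy hne v)] at h1
  simp only [sum_sub_distrib, sum_add_distrib, sum_ite_eq', mem_univ, if_true] at h1
  rw [h2] at h1
  omega

theorem ex_sq [Fintype V] {T : SimpleGraph V} {a b u y : V} (hab : T.Adj a b) (huy : ¬ T.Adj u y) (hne : u ≠ y)
    (hub : u ≠ b) (hya : y ≠ a) (h : sq (ex T a b u y) = sq T) :
    dg T u + dg T y - dg T a - dg T b + 2 = (open Classical in if u = a then (1 : ℤ) else 0) +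
      (open Classical in if y = b then (1 : ℤ) else 0) := by
  classical
  have habne := hab.ne
  have h1 : ∀ v, (dg (ex T a b u y) v) ^ 2 = (dg T v) ^ 2 +
      (if v = u then 2 * dg T v else 0) + (if v = y then 2 * dg T v else 0)
      - (if v = a then 2 * dg T v else 0) - (if v = b then 2 * dg T v else 0) +
      (if v = u then 1 - 2 * (if v = a then 1 else 0) else 0) + (if v = y then 1 - 2 * (if v = b then 1 else 0) else 0) +
      (if v = a then 1 else 0) + (if v = b then 1 else 0) := by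
    intro v
    rw [dg_ex hab huy hne]
    by_cases e1 : v = u
    · subst e1
      by_cases e2 : v = a
      · subst e2
        simp [hne, habne]
        try ring
      · simp [hne, e2, hub]
        try ring
    · by_cases e3 : v = y
      · subst e3
        by_cases e4 : v = b
        · subst e4
          simp [e1, hya]
          try ring
        · simp [e1, e4, hya]
          try ring
      · by_cases e2 : v = a
        · subst e2
          simp [e1, e3, habne]
          try ring
        · by_cases e4 : v = b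
          · subst e4
            simp [e1, e2, e3]
            try ring
          · simp [e1, e2, e3, e4]
  unfold sq at h
  rw [sum_congr rfl (fun v _ => h1 v)] at h
  simp only [sum_sub_distrib, sum_add_distrib, sum_ite_eq', mem_univ, if_true] at h
  split_ifs at h ⊢ <;> omega

theorem reach_up (R : RT V) (H : SimpleGraph V) {a v : V} (h : R.Anc a v)
    (hs : ∀ w, w ≠ a → R.Anc a w → R.Anc w v → H.Adj w (R.p w)) : H.Reachable v a := by
  obtain ⟨k, hk⟩ := h
  induction k generalizing v with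
  | zero =>
    have h1 : v = a := hk
    rw [h1]
  | succ k ih =>
    rw [Function.iterate_succ_apply] at hk
    by_cases hv : v = a
    · rw [hv]
    · have hav : R.Anc a (R.p v) := ⟨k, hk⟩
      exact (hs v hv hav.step (RT.Anc.refl R v)).reachable.trans (ih (fun w h1 h2 h3 => hs w h1 h2 h3.step) hk)

theorem ex_tree [Fintype V] (R : RT V) {c u y : V} (hc : c ≠ R.r) (hcu : R.Anc c u) (hy : R.Anc y (R.p c))
    (huy : ¬ R.gr.Adj u y) : (ex R.gr c (R.p c) u y).IsTree := by
  have hdy : R.dep y ≤ R.dep (R.p c) := hy.dep_le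
  have hdc := R.dep_p c hc
  have hdu := hcu.dep_le
  have hne : u ≠ y := by rintro rfl; omega
  haveI : Nonempty V := ⟨c⟩
  rw [SimpleGraph.isTree_iff_connected_and_card]
  refine ⟨?_, ?_⟩
  · have k1 : (ex R.gr c (R.p c) u y).Reachable u c := by
      apply reach_up R _ hcu
      intro w h1 h2 h3
      have h4 := h2.dep_lt (Ne.symm h1)
      have h5 : w ≠ R.r := by
        rintro rfl
        rw [R.dep_r] at h4
        omega
      refine Or.inl ⟨R.adj_p h5, ?_⟩
      rintro (⟨h6, -⟩ | ⟨h6, -⟩)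
      · exact h1 h6
      · rw [h6] at h4
        omega
    have k2 : (ex R.gr c (R.p c) u y).Reachable (R.p c) y := by
      apply reach_up R _ hy
      intro w h1 h2 h3
      have h4 := h2.dep_lt (Ne.symm h1)
      have h5 : w ≠ R.r := by
        rintro rfl
        rw [R.dep_r] at h4
        omega
      have h7 := h3.dep_le
      refine Or.inl ⟨R.adj_p h5, ?_⟩
      rintro (⟨h6, -⟩ | ⟨-, h6⟩)
      · rw [h6] at h7
        omega
      · have h8 := R.dep_p w h5
        rw [h6] at h8
        omega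
    have k3 : (ex R.gr c (R.p c) u y).Adj u y := Or.inr ⟨hne, Or.inl ⟨rfl, rfl⟩⟩
    have key : (ex R.gr c (R.p c) u y).Reachable c (R.p c) := k1.symm.trans (k3.reachable.trans k2.symm)
    have hadj : ∀ v w, R.gr.Adj v w → (ex R.gr c (R.p c) u y).Reachable v w := by
      intro v w h
      by_cases h1 : (v = c ∧ w = R.p c) ∨ (v = R.p c ∧ w = c)
      · rcases h1 with ⟨h2, h3⟩ | ⟨h2, h3⟩
        · rw [h2, h3]; exact key
        · rw [h2, h3]; exact key.symm
      · exact SimpleGraph.Adj.reachable (Or.inl ⟨h, h1⟩)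
    have hreach : ∀ v w, R.gr.Reachable v w → (ex R.gr c (R.p c) u y).Reachable v w := by
      rintro v w ⟨q⟩
      induction q with
      | nil => exact SimpleGraph.Reachable.refl _
      | cons h q ih => exact (hadj _ _ h).trans ih
    exact ⟨fun v w => hreach v w (R.connected v w)⟩
  · rw [ex_card (R.adj_p hc) huy hne]
    exact (SimpleGraph.isTree_iff_connected_and_card.1 R.isTree).2

theorem ex_le [Fintype V] (R : RT V) {G : SimpleGraph V} (hle : R.gr ≤ G) {c u y : V} (h : G.Adj u y) :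
    ex R.gr c (R.p c) u y ≤ G := by
  intro v w h1
  rcases h1 with ⟨h1, -⟩ | ⟨-, ⟨h1, h2⟩ | ⟨h1, h2⟩⟩
  · exact hle h1
  · rw [h1, h2]; exact h
  · rw [h1, h2]; exact h.symm

theorem two_trees [Fintype V] (G : SimpleGraph V) (hconn : G.Connected) (hdeg : ∀ v, 3 ≤ (N G v).card) :
    ∃ T T' : SimpleGraph V, T ≤ G ∧ T' ≤ G ∧ T.IsTree ∧ T'.IsTree ∧ ¬ Nonempty (T ≃g T') := by
  classical
  by_contra hcon
  have hall : ∀ T T' : SimpleGraph V, T ≤ G → T' ≤ G → T.IsTree → T'.IsTree → sq T = sq T' := by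
    intro T T' h1 h2 h3 h4
    by_contra h5
    exact hcon ⟨T, T', h1, h2, h3, h4, fun ⟨e⟩ => h5 (sq_iso e)⟩
  haveI := hconn.nonempty
  obtain ⟨T0, hT0, hT0t⟩ := hconn.exists_isTree_le
  obtain ⟨R0, -, hR0⟩ := exists_RT hT0t (Classical.arbitrary V)
  obtain ⟨R, hR, hmax⟩ := Set.exists_max_image {R : RT V | R.gr ≤ G} (fun R => ∑ v, R.dep v)
    (Set.toFinite _) ⟨R0, by show R0.gr ≤ G; rw [hR0]; exact hT0⟩
  have hle : R.gr ≤ G := hR
  obtain ⟨u, -, hu⟩ := Finset.exists_max_image univ R.dep ⟨R.r, mem_univ _⟩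
  have hur : u ≠ R.r := by
    rintro h
    have h1 := hdeg R.r
    obtain ⟨w, hw⟩ := card_pos.1 (by omega : 0 < (N G R.r).card)
    rw [mem_N] at hw
    have h2 := hu w (mem_univ _)
    rw [h, R.dep_r] at h2
    have h3 := R.dep_zero (by omega : R.dep w = 0)
    exact hw.ne h3.symm
  have hanc : ∀ z, G.Adj u z → R.Anc z u := by
    intro z hz
    by_contra hna
    have hzr : z ≠ R.r := by
      rintro rfl
      exact hna (RT.Anc.root u)
    have h1 := R.rep_sum z u hzr hna (hu z (mem_univ _))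
    have h2 := hmax (R.rep z u hzr hna) (by
      show (R.rep z u hzr hna).gr ≤ G
      have key : ∀ v, v ≠ R.r → G.Adj v ((R.rep z u hzr hna).p v) := by
        intro v hv
        show G.Adj v (if v = z then u else R.p v)
        split_ifs with h
        · rw [h]; exact hz.symm
        · exact hle (R.adj_p hv)
      intro v w h
      rcases h with ⟨h3, h4⟩ | ⟨h3, h4⟩
      · rw [← h4]; exact key v h3
      · rw [← h4]; exact (key w h3).symm)
    omega
  have hleaf : ∀ z, R.gr.Adj u z → z = R.p u := by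
    intro z hz
    rcases R.adj_dep hz with h | h
    · exact h.2.1.symm
    · have := hu z (mem_univ _)
      omega
  -- the two other neighbours
  have hex : ∃ z z', G.Adj u z ∧ G.Adj u z' ∧ z ≠ R.p u ∧ z' ≠ R.p u ∧ R.dep z' < R.dep z := by
    have h1 : 1 < ((N G u).erase (R.p u)).card := by
      have := pred_card_le_card_erase (s := N G u) (a := R.p u)
      have := hdeg u
      omega
    obtain ⟨z, hz, z', hz', hne⟩ := one_lt_card.1 h1
    rw [mem_erase, mem_N] at hz hz'
    rcases lt_trichotomy (R.dep z) (R.dep z') with h | h | h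
    · exact ⟨z', z, hz'.2, hz.2, hz'.1, hz.1, h⟩
    · exact absurd ((hanc z hz.2).eq_of_dep (hanc z' hz'.2) h) hne
    · exact ⟨z, z', hz.2, hz'.2, hz.1, hz'.1, h⟩
  obtain ⟨z, z', hz, hz', hzp, hzp', hdz⟩ := hex
  have az := hanc z hz
  have az' := hanc z' hz'
  have azz : R.Anc z' z := by
    rcases az.total az' with h | h
    · have := h.dep_le; omega
    · exact h
  have hzz : z ≠ z' := by rintro rfl; omega
  obtain ⟨c, hcr, hpc, hcu⟩ := az.child hz.ne'
  have hcu' : c ≠ u := by
    rintro rfl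
    exact hzp hpc.symm
  have n1 : ¬ R.gr.Adj u z := fun h => hzp (hleaf z h)
  have n2 : ¬ R.gr.Adj u z' := fun h => hzp' (hleaf z' h)
  have anc_p : ∀ w, G.Adj u w → w ≠ u → R.Anc w (R.p u) := fun w hw hne => (hanc w hw).of_ne hne
  have dpc := R.dep_p c hcr
  have dpu := R.dep_p u hur
  have e1 := ex_sq (R.adj_p hur) n1 hz.ne (R.p_ne hur).symm hz.ne' 
    (hall _ _ (ex_le R hle hz) hle (ex_tree R hur (RT.Anc.refl R u) (anc_p z hz hz.ne') n1) R.isTree)
  have e2 := ex_sq (R.adj_p hur) n2 hz'.ne (R.p_ne hur).symm hz'.ne'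
    (hall _ _ (ex_le R hle hz') hle (ex_tree R hur (RT.Anc.refl R u) (anc_p z' hz' hz'.ne') n2) R.isTree)
  have hzc : z ≠ c := by
    rintro rfl
    exact R.p_ne hcr hpc
  have hzc' : z' ≠ c := by
    rintro rfl
    rw [hpc] at dpc
    omega
  have hupc : u ≠ R.p c := by rw [hpc]; exact hz.ne
  have e3 := ex_sq (R.adj_p hcr) n1 hz.ne hupc hzc
    (hall _ _ (ex_le R hle hz) hle (ex_tree R hcr hcu (by rw [hpc]; exact RT.Anc.refl R z) n1) R.isTree)
  have e4 := ex_sq (R.adj_p hcr) n2 hz'.ne hupc hzc'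
    (hall _ _ (ex_le R hle hz') hle (ex_tree R hcr hcu (by rw [hpc]; exact azz) n2) R.isTree)
  rw [hpc] at e3 e4
  rw [if_pos rfl, if_neg hzp] at e1
  rw [if_pos rfl, if_neg hzp'] at e2
  rw [if_neg hcu'.symm, if_pos rfl] at e3
  rw [if_neg hcu'.symm, if_neg hzz.symm] at e4
  omega

end Pool.Agent.Helper38K9.ST
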