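import Pool.Agent.Helper38K9.ST.Code
import Pool.Agent.Helper38K9.ST.Good2
import Pool.Agent.Helper38K9.ST.Two

set_option autoImplicit false

/-! The final count. -/

namespace Pool.Agent.Helper38K9.ST

open Finset

variable {V : Type}

/-- the spanning trees of `G` -/
def SpanningTree (G : SimpleGraph V) : Type := {T : SimpleGraph V // T ≤ G ∧ T.IsTree}

/-- two spanning trees are equivalent when they are isomorphic as abstract graphs -/
def isoSetoid (G : SimpleGraph V) : Setoid (SpanningTree G) where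
  r T T' := Nonempty (T.1 ≃g T'.1)
  iseqv := ⟨fun _ => ⟨RelIso.refl _⟩, fun ⟨e⟩ => ⟨e.symm⟩, fun ⟨e⟩ ⟨f⟩ => ⟨e.trans f⟩⟩

/-- the number of isomorphism classes of spanning trees of `G` -/
noncomputable def numTrees (G : SimpleGraph V) : ℕ := Nat.card (Quotient (isoSetoid G))

instance [Finite V] (G : SimpleGraph V) : Finite (SpanningTree G) :=
  inferInstanceAs (Finite {T : SimpleGraph V // T ≤ G ∧ T.IsTree})

theorem U_card [Fintype V] {G : SimpleGraph V} (C : Cfg G) : 2 * C.U.card ≤ Fintype.card V := by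
  classical
  have hur : ∀ u ∈ C.U, u ≠ C.R.r := by
    rintro u hu rfl
    exact C.hUr hu
  have h1 : C.U.card ≤ (univ \ C.U).card := by
    apply card_le_card_of_injOn C.R.p
    · intro u hu
      rw [mem_coe] at hu
      simp only [mem_coe, mem_sdiff, mem_univ, true_and]
      exact C.hUl u (hur u hu)
    · intro u hu u' hu' h
      rw [mem_coe] at hu hu'
      have h2 := C.hG u' (hur u' hu')
      rw [← h] at h2
      exact C.sep u hu u' hu' (C.R.p u) (C.hG u (hur u hu)) h2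
  have h2 : (univ \ C.U).card + C.U.card = Fintype.card V := by
    rw [card_sdiff_add_card_eq_card (subset_univ _), card_univ]
  omega

theorem r_mem_B [Fintype V] {G : SimpleGraph V} (C : Cfg G) {K : ℕ} (hK : 2 * K ≤ Fintype.card V) : C.R.r ∈ C.B K := by
  classical
  refine ⟨C.hUr, ?_⟩
  have h1 := U_card C
  have h2 : (univ \ C.U).card + C.U.card = Fintype.card V := by
    rw [card_sdiff_add_card_eq_card (subset_univ _), card_univ]
  have h3 : (univ \ C.U).card ≤ C.sz C.R.r := by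
    unfold Cfg.sz
    apply card_le_card
    intro w hw
    rw [mem_sdiff] at hw
    rw [mem_filter]
    exact ⟨mem_univ _, hw.2, RT.Anc.root w⟩
  omega

theorem main_ineq [Fintype V] {G : SimpleGraph V} {d K : ℕ} (hd : 3 ≤ d) (hK : 1 ≤ K) (hn : 2 * K ≤ Fintype.card V)
    (hconn : G.Connected) (hreg : ∀ v, (N G v).card = d) :
    (1 + d * K) ^ (Fintype.card V) ≤
      (numTrees G * (Fintype.card V * ((d + 1) ^ (d + 1)) ^ (Fintype.card V / K))) ^ (d * K * (4 * (d + 1) ^ 6)) := by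
  classical
  have := hconn.nonempty
  obtain ⟨C, hC⟩ := exists_Cfg hd hconn hreg
  have hr := r_mem_B C hn
  have hdeg : ∀ v, (C.R.kids v).card ≤ d := by
    intro v
    rw [← hreg v]
    apply card_le_card
    intro c hc
    rw [RT.mem_kids] at hc
    rw [mem_N]
    have := C.hG c hc.1
    rw [hc.2] at this
    exact this.symm
  have hsc := scores C.U (C.fx K hr) (C.fy K hr) (C.fx_ne_fy K hr) (d * K)
    (by intro k; convert C.mult K (d := d) (by omega) hK hdeg hr k)
  have hreg' : ∀ v, {w | G.Adj v w}.ncard ≤ d := by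
    intro v
    rw [← hreg v, ← Set.ncard_coe_finset]
    apply Set.ncard_le_ncard _ (Finset.finite_toSet _)
    intro w hw
    rw [mem_coe, mem_N]
    exact hw
  have hcl := C.classes (K := K) hreg' hK hr (Q := Quotient (isoSetoid G))
    (fun b => Quotient.mk (isoSetoid G) ⟨(C.tb b).gr, C.tb_le b, (C.tb b).isTree⟩)
    (fun b b' h => Quotient.exact h)
  calc (1 + d * K) ^ (Fintype.card V) ≤ (1 + d * K) ^ (C.U.card * (4 * (d + 1) ^ 6)) :=
        Nat.pow_le_pow_right (by omega) hC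
    _ = ((1 + d * K) ^ C.U.card) ^ (4 * (d + 1) ^ 6) := by rw [pow_mul]
    _ ≤ ((Set.range (score C.U (C.fx K hr) (C.fy K hr))).ncard ^ (d * K)) ^ (4 * (d + 1) ^ 6) :=
        Nat.pow_le_pow_left hsc _
    _ = (Set.range (score C.U (C.fx K hr) (C.fy K hr))).ncard ^ (d * K * (4 * (d + 1) ^ 6)) := by rw [← pow_mul]
    _ ≤ _ := Nat.pow_le_pow_left hcl _

theorem two_le [Fintype V] {G : SimpleGraph V} {d : ℕ} (hd : 3 ≤ d)
    (hconn : G.Connected) (hreg : ∀ v, (N G v).card = d) : 2 ≤ numTrees G := by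
  obtain ⟨T, T', h1, h2, h3, h4, h5⟩ := two_trees G hconn (fun v => by rw [hreg v]; exact hd)
  have : Nontrivial (Quotient (isoSetoid G)) :=
    ⟨Quotient.mk (isoSetoid G) ⟨T, h1, h3⟩, Quotient.mk (isoSetoid G) ⟨T', h2, h4⟩, fun h => h5 (Quotient.exact h)⟩
  exact Finite.one_lt_card

theorem log_le_sqrt {x : ℝ} (hx : 0 < x) : Real.log x ≤ 2 * √x := by
  have h1 : 0 < √x := Real.sqrt_pos.2 hx
  have h2 := Real.log_le_sub_one_of_pos h1
  have h3 : Real.log x = 2 * Real.log (√x) := by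
    rw [Real.log_sqrt hx.le]; ring
  rw [h3]
  linarith

theorem big [Fintype V] {G : SimpleGraph V} {d K : ℕ} (hd : 3 ≤ d) (hK : 1 ≤ K) (hn : 16 * K ^ 2 ≤ Fintype.card V)
    (hconn : G.Connected) (hreg : ∀ v, (N G v).card = d)
    (hlog : ((4 * (d + 1) ^ 6 : ℕ) : ℝ) * d * (Real.log (((d + 1) ^ (d + 1) : ℕ) : ℝ) + 1) ≤ Real.log (((1 + d * K : ℕ)) : ℝ)) :
    (Fintype.card V : ℝ) / (2 * K) ≤ Real.log (numTrees G) := by
  have hn2 : 2 * K ≤ Fintype.card V := by nlinarith
  have h1 := main_ineq hd hK hn2 hconn hreg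
  have hQ := two_le hd hconn hreg
  have hnpos : 0 < Fintype.card V := by omega
  set n := Fintype.card V with hnd
  set Q := numTrees G with hQd
  set c0 : ℕ := 4 * (d + 1) ^ 6 with hc0
  set A : ℕ := (d + 1) ^ (d + 1) with hA
  have hc0p : 0 < c0 := by rw [hc0]; positivity
  have hAp : 0 < A := by rw [hA]; positivity
  have hnR : (0 : ℝ) < n := by exact_mod_cast hnpos
  have hKR : (0 : ℝ) < K := by exact_mod_cast hK
  have hQR : (0 : ℝ) < Q := by
    have : 0 < Q := by omega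
    exact_mod_cast this
  have hc0R : (0 : ℝ) < c0 := by exact_mod_cast hc0p
  have hdR : (0 : ℝ) < d := by
    have : 0 < d := by omega
    exact_mod_cast this
  have hAR : (1 : ℝ) ≤ A := by exact_mod_cast hAp
  have hL : 0 ≤ Real.log A := Real.log_nonneg hAR
  have h2 : ((1 + d * K : ℕ) : ℝ) ^ n ≤ ((Q : ℝ) * ((n : ℝ) * (A : ℝ) ^ (n / K))) ^ (d * K * c0) := by
    exact_mod_cast h1
  have h3 := Real.log_le_log (by positivity) h2
  rw [Real.log_pow, Real.log_pow, Real.log_mul hQR.ne' (by positivity), Real.log_mul hnR.ne' (by positivity),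
    Real.log_pow] at h3
  have h4 : ((n / K : ℕ) : ℝ) ≤ (n : ℝ) / K := Nat.cast_div_le
  have h5 : (n : ℝ) * ((c0 : ℝ) * d * (Real.log A + 1)) ≤ n * Real.log ((1 + d * K : ℕ) : ℝ) :=
    mul_le_mul_of_nonneg_left hlog hnR.le
  have h6 : ((d * K * c0 : ℕ) : ℝ) * (Real.log Q + (Real.log n + ((n / K : ℕ) : ℝ) * Real.log A)) ≤
      ((d * K * c0 : ℕ) : ℝ) * (Real.log Q + (Real.log n + ((n : ℝ) / K) * Real.log A)) := by
    gcongr
  have h7 : (n : ℝ) * ((c0 : ℝ) * d * (Real.log A + 1)) ≤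
      ((d * K * c0 : ℕ) : ℝ) * (Real.log Q + (Real.log n + ((n : ℝ) / K) * Real.log A)) := h5.trans (h3.trans h6)
  have h8 : (c0 * d : ℝ) * n ≤ (c0 * d : ℝ) * (K * (Real.log Q + Real.log n)) := by
    have e : ((d * K * c0 : ℕ) : ℝ) * (Real.log Q + (Real.log n + ((n : ℝ) / K) * Real.log A)) =
        (c0 * d : ℝ) * (K * (Real.log Q + Real.log n)) + (c0 * d : ℝ) * (n * Real.log A) := by
      push_cast
      field_simp
      ring
    rw [e] at h7
    nlinarith
  have h9 : (n : ℝ) ≤ K * (Real.log Q + Real.log n) := le_of_mul_le_mul_left h8 (by positivity)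
  have h10 := log_le_sqrt hnR
  have h11 : 4 * (K : ℝ) ≤ √(n : ℝ) := by
    apply Real.le_sqrt_of_sq_le
    have : ((16 * K ^ 2 : ℕ) : ℝ) ≤ (n : ℝ) := by exact_mod_cast hn
    push_cast at this
    nlinarith
  have h12 : √(n : ℝ) * √(n : ℝ) = n := Real.mul_self_sqrt hnR.le
  have h13 : 0 < √(n : ℝ) := Real.sqrt_pos.2 hnR
  rw [div_le_iff₀ (by positivity)]
  have h14 : 4 * K * √(n : ℝ) ≤ n := by
    calc 4 * K * √(n : ℝ) ≤ √(n : ℝ) * √(n : ℝ) := mul_le_mul_of_nonneg_right h11 h13.le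
      _ = n := h12
  have h15 : (K : ℝ) * Real.log n ≤ K * (2 * √(n : ℝ)) := mul_le_mul_of_nonneg_left h10 hKR.le
  nlinarith

theorem final (d : ℕ) (hd : 3 ≤ d) : ∃ c : ℝ, 0 < c ∧ ∀ (V : Type) [Fintype V] (G : SimpleGraph V),
    G.Connected → (∀ v, (N G v).card = d) → Real.exp (c * Fintype.card V) ≤ numTrees G := by
  obtain ⟨K, hK⟩ := exists_nat_ge (max 1 (Real.exp (((4 * (d + 1) ^ 6 : ℕ) : ℝ) * d * (Real.log (((d + 1) ^ (d + 1) : ℕ) : ℝ) + 1))))
  have hK1 : 1 ≤ K := by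
    have := (le_max_left _ _).trans hK
    exact_mod_cast this
  have hKR : (1 : ℝ) ≤ K := by exact_mod_cast hK1
  have hlog : ((4 * (d + 1) ^ 6 : ℕ) : ℝ) * d * (Real.log (((d + 1) ^ (d + 1) : ℕ) : ℝ) + 1) ≤ Real.log (((1 + d * K : ℕ)) : ℝ) := by
    have h1 := (le_max_right _ _).trans hK
    have h2 : (K : ℝ) ≤ ((1 + d * K : ℕ) : ℝ) := by
      have : K ≤ 1 + d * K := by nlinarith
      exact_mod_cast this
    rw [Real.le_log_iff_exp_le (by positivity)]
    exact h1.trans h2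
  have hpos : (0 : ℝ) < 16 * (K : ℝ) ^ 2 := by positivity
  have hlog2 : 0 < Real.log 2 := Real.log_pos (by norm_num)
  refine ⟨min (1 / (2 * K)) (Real.log 2 / (16 * (K : ℝ) ^ 2)), by positivity, ?_⟩
  intro V _ G hconn hreg
  have hQ := two_le hd hconn hreg
  have hQR : (2 : ℝ) ≤ numTrees G := by exact_mod_cast hQ
  by_cases hn : 16 * K ^ 2 ≤ Fintype.card V
  · have h1 := big hd hK1 hn hconn hreg hlog
    rw [← Real.le_log_iff_exp_le (by positivity)]
    refine le_trans ?_ h1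
    calc _ ≤ (1 / (2 * (K : ℝ))) * (Fintype.card V : ℝ) := by
          apply mul_le_mul_of_nonneg_right (min_le_left _ _) (Nat.cast_nonneg _)
      _ = _ := by ring
  · rw [← Real.le_log_iff_exp_le (by positivity)]
    have h1 : (Fintype.card V : ℝ) ≤ 16 * (K : ℝ) ^ 2 := by
      have : Fintype.card V ≤ 16 * K ^ 2 := by omega
      exact_mod_cast this
    calc _ ≤ (Real.log 2 / (16 * (K : ℝ) ^ 2)) * (Fintype.card V : ℝ) := by
          apply mul_le_mul_of_nonneg_right (min_le_right _ _) (Nat.cast_nonneg _)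
      _ ≤ (Real.log 2 / (16 * (K : ℝ) ^ 2)) * (16 * (K : ℝ) ^ 2) := by
          apply mul_le_mul_of_nonneg_left h1 (by positivity)
      _ = Real.log 2 := by field_simp
      _ ≤ _ := Real.log_le_log (by norm_num) hQR

end Pool.Agent.Helper38K9.ST
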