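import Mathlib

set_option autoImplicit false

/-! Rooted trees given by a parent function and a depth function. -/

namespace Pool.Agent.Helper38K9.ST

open Finset

/-- rooted trees on a set of vertices, given by a parent function and a depth function -/
@[ext] structure RT (V : Type) where
  r : V
  p : V → V
  dep : V → ℕ
  p_r : p r = r
  dep_r : dep r = 0
  dep_p : ∀ v, v ≠ r → dep v = dep (p v) + 1

namespace RT

variable {V : Type} (R : RT V)

theorem p_ne {v : V} (hv : v ≠ R.r) : R.p v ≠ v := by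
  intro h
  have := R.dep_p v hv
  rw [h] at this
  omega

/-- the tree as a graph -/
def gr : SimpleGraph V where
  Adj v w := (v ≠ R.r ∧ R.p v = w) ∨ (w ≠ R.r ∧ R.p w = v)
  symm := ⟨fun v w h => by tauto⟩
  loopless := ⟨fun v h => by
    rcases h with ⟨h1, h2⟩ | ⟨h1, h2⟩ <;> exact R.p_ne h1 h2⟩

theorem gr_adj {v w : V} : R.gr.Adj v w ↔ (v ≠ R.r ∧ R.p v = w) ∨ (w ≠ R.r ∧ R.p w = v) := Iff.rfl

theorem adj_p {v : V} (hv : v ≠ R.r) : R.gr.Adj v (R.p v) := Or.inl ⟨hv, rfl⟩

theorem dep_zero {v : V} (h : R.dep v = 0) : v = R.r := by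
  by_contra hv
  have := R.dep_p v hv
  omega

theorem dep_pos {v : V} (hv : v ≠ R.r) : 0 < R.dep v := by
  have := R.dep_p v hv
  omega

theorem reach_r (v : V) : R.gr.Reachable v R.r := by
  obtain ⟨n, hn⟩ : ∃ n, n = R.dep v := ⟨_, rfl⟩
  induction n generalizing v with
  | zero => rw [R.dep_zero hn.symm]
  | succ n ih =>
    have hv : v ≠ R.r := by
      rintro rfl
      rw [R.dep_r] at hn
      omega
    have h1 := R.dep_p v hv
    exact (R.adj_p hv).reachable.trans (ih (R.p v) (by omega))

theorem connected : R.gr.Connected := by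
  haveI : Nonempty V := ⟨R.r⟩
  exact ⟨fun v w => (R.reach_r v).trans (R.reach_r w).symm⟩

/-- an edge joins the levels `k` and `k + 1` -/
theorem adj_dep {v w : V} (h : R.gr.Adj v w) :
    (R.dep v = R.dep w + 1 ∧ R.p v = w ∧ v ≠ R.r) ∨ (R.dep w = R.dep v + 1 ∧ R.p w = v ∧ w ≠ R.r) := by
  rcases h with ⟨h1, h2⟩ | ⟨h1, h2⟩
  · left
    exact ⟨by rw [← h2]; exact R.dep_p v h1, h2, h1⟩
  · right
    exact ⟨by rw [← h2]; exact R.dep_p w h1, h2, h1⟩

theorem isTree [Finite V] : R.gr.IsTree := by
  classical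
  rw [SimpleGraph.isTree_iff_connected_and_card]
  refine ⟨R.connected, ?_⟩
  have e : Nat.card {v : V // v ≠ R.r} = Nat.card R.gr.edgeSet := by
    apply Nat.card_congr
    refine Equiv.ofBijective (fun v => ⟨s(v.1, R.p v.1), (SimpleGraph.mem_edgeSet _).2 (R.adj_p v.2)⟩) ⟨?_, ?_⟩
    · rintro ⟨v, hv⟩ ⟨w, hw⟩ h
      simp only [Subtype.mk.injEq, Sym2.eq, Sym2.rel_iff', Prod.mk.injEq, Prod.swap_prod_mk] at h
      rcases h with ⟨h1, -⟩ | ⟨h1, h2⟩
      · exact Subtype.ext h1
      · exfalso
        have h3 := R.dep_p v hv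
        have h4 := R.dep_p w hw
        rw [h2] at h3
        rw [← h1] at h4
        omega
    · rintro ⟨e, he⟩
      induction e using Sym2.ind with
      | _ v w =>
        rw [SimpleGraph.mem_edgeSet] at he
        rcases he with ⟨h1, h2⟩ | ⟨h1, h2⟩
        · exact ⟨⟨v, h1⟩, by simp [h2]⟩
        · refine ⟨⟨w, h1⟩, ?_⟩
          simp [h2, Sym2.eq_swap]
  rw [← e]
  haveI := Fintype.ofFinite V
  rw [Nat.card_eq_fintype_card, Nat.card_eq_fintype_card, Fintype.card_subtype_compl]
  have : Fintype.card {v : V // v = R.r} = 1 := Fintype.card_unique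
  rw [this]
  have h1 : 0 < Fintype.card V := Fintype.card_pos_iff.2 ⟨R.r⟩
  omega

/-! ### uniqueness and transport -/

theorem dep_le_of_gr {R R' : RT V} (hr : R.r = R'.r) (hg : R.gr = R'.gr) (v : V) : R.dep v ≤ R'.dep v := by
  obtain ⟨n, hn⟩ : ∃ n, n = R'.dep v := ⟨_, rfl⟩
  induction n generalizing v with
  | zero =>
    have := R'.dep_zero hn.symm
    rw [this, ← hr, R.dep_r]
    omega
  | succ n ih =>
    have hv : v ≠ R'.r := by
      rintro rfl
      rw [R'.dep_r] at hn
      omega
    have h1 := R'.dep_p v hv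
    have h2 := ih (R'.p v) (by omega)
    have h3 : R.gr.Adj v (R'.p v) := by rw [hg]; exact R'.adj_p hv
    rcases R.adj_dep h3 with h | h <;> omega

theorem ext_gr {R R' : RT V} (hr : R.r = R'.r) (hg : R.gr = R'.gr) : R = R' := by
  have hd : R.dep = R'.dep := by
    funext v
    exact le_antisymm (dep_le_of_gr hr hg v) (dep_le_of_gr hr.symm hg.symm v)
  have hp : R.p = R'.p := by
    funext v
    by_cases hv : v = R.r
    · rw [hv, R.p_r, hr, R'.p_r]
    · have hv' : v ≠ R'.r := by rwa [← hr]
      have h1 : R'.gr.Adj v (R.p v) := by rw [← hg]; exact R.adj_p hv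
      have h2 := R.dep_p v hv
      rcases R'.adj_dep h1 with h | h
      · exact h.2.1.symm
      · rw [← hd] at h
        omega
  exact RT.ext hr hp hd

/-- the image of a rooted tree under a bijection -/
def map (e : V ≃ V) : RT V where
  r := e R.r
  p := fun v => e (R.p (e.symm v))
  dep := fun v => R.dep (e.symm v)
  p_r := by simp [R.p_r]
  dep_r := by simp [R.dep_r]
  dep_p := by
    intro v hv
    have : e.symm v ≠ R.r := by
      intro h
      apply hv
      rw [← h]; simp
    simpa using R.dep_p _ this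

theorem map_gr_adj (e : V ≃ V) (v w : V) : (R.map e).gr.Adj v w ↔ R.gr.Adj (e.symm v) (e.symm w) := by
  unfold map
  simp only [gr_adj, ne_eq]
  constructor
  · rintro (⟨h1, h2⟩ | ⟨h1, h2⟩)
    · left
      refine ⟨fun h => h1 (by rw [← h]; simp), ?_⟩
      rw [← h2]; simp
    · right
      refine ⟨fun h => h1 (by rw [← h]; simp), ?_⟩
      rw [← h2]; simp
  · rintro (⟨h1, h2⟩ | ⟨h1, h2⟩)
    · left
      refine ⟨fun h => h1 (by rw [h]; simp), ?_⟩
      rw [h2]; simp
    · right
      refine ⟨fun h => h1 (by rw [h]; simp), ?_⟩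
      rw [h2]; simp

theorem map_gr_of_iso {R R' : RT V} (e : R.gr ≃g R'.gr) : (R.map e.toEquiv).gr = R'.gr := by
  ext v w
  rw [map_gr_adj]
  have h := e.map_rel_iff (a := e.toEquiv.symm v) (b := e.toEquiv.symm w)
  rw [← h]
  have h1 : ∀ x, e (e.toEquiv.symm x) = x := fun x => e.toEquiv.apply_symm_apply x
  rw [h1, h1]

@[simp] theorem map_p (e : V ≃ V) (v : V) : (R.map e).p (e v) = e (R.p v) := by simp [map]
@[simp] theorem map_dep (e : V ≃ V) (v : V) : (R.map e).dep (e v) = R.dep v := by simp [map]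
theorem map_r (e : V ≃ V) : (R.map e).r = e R.r := rfl

theorem map_iter (e : V ≃ V) (k : ℕ) (v : V) : (R.map e).p^[k] (e v) = e (R.p^[k] v) := by
  induction k with
  | zero => rfl
  | succ k ih => rw [Function.iterate_succ_apply', ih, map_p, Function.iterate_succ_apply']

/-! ### ancestors -/

/-- `a` is an ancestor of `v` (or equal to `v`) -/
def Anc (a v : V) : Prop := ∃ k, R.p^[k] v = a

theorem Anc.refl (v : V) : R.Anc v v := ⟨0, rfl⟩

variable {R}

theorem Anc.trans {a b v : V} (h1 : R.Anc a b) (h2 : R.Anc b v) : R.Anc a v := by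
  obtain ⟨k, hk⟩ := h1
  obtain ⟨l, hl⟩ := h2
  exact ⟨k + l, by rw [Function.iterate_add_apply, hl, hk]⟩

theorem Anc.p_self (v : V) : R.Anc (R.p v) v := ⟨1, rfl⟩

theorem Anc.step {a v : V} (h : R.Anc a (R.p v)) : R.Anc a v := h.trans (Anc.p_self v)

theorem Anc.of_ne {a v : V} (h : R.Anc a v) (hne : a ≠ v) : R.Anc a (R.p v) := by
  obtain ⟨k, hk⟩ := h
  cases k with
  | zero => exact absurd hk.symm hne
  | succ k => exact ⟨k, by rw [← Function.iterate_succ_apply]; exact hk⟩

theorem dep_p_le (v : V) : R.dep (R.p v) ≤ R.dep v := by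
  by_cases hv : v = R.r
  · rw [hv, R.p_r]
  · have := R.dep_p v hv
    omega

theorem Anc.dep_le {a v : V} (h : R.Anc a v) : R.dep a ≤ R.dep v := by
  obtain ⟨k, hk⟩ := h
  induction k generalizing v with
  | zero => rw [← hk]; rfl
  | succ k ih =>
    rw [Function.iterate_succ_apply] at hk
    exact (ih hk).trans (dep_p_le v)

theorem Anc.dep_lt {a v : V} (h : R.Anc a v) (hne : a ≠ v) : R.dep a < R.dep v := by
  have h1 := (h.of_ne hne).dep_le
  by_cases hv : v = R.r
  · exfalso
    apply hne
    obtain ⟨k, hk⟩ := h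
    have : ∀ k, R.p^[k] R.r = R.r := by
      intro k
      induction k with
      | zero => rfl
      | succ k ih => rw [Function.iterate_succ_apply, R.p_r, ih]
    rw [← hk, hv, this k]
  · have := R.dep_p v hv
    omega

theorem Anc.antisymm {a v : V} (h : R.Anc a v) (h' : R.Anc v a) : a = v := by
  by_contra hne
  have h1 := h.dep_lt hne
  have h2 := h'.dep_le
  omega

theorem Anc.root (v : V) : R.Anc R.r v := by
  obtain ⟨n, hn⟩ : ∃ n, n = R.dep v := ⟨_, rfl⟩
  induction n generalizing v with
  | zero => rw [R.dep_zero hn.symm]; exact Anc.refl R _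
  | succ n ih =>
    have hv : v ≠ R.r := by
      rintro rfl
      rw [R.dep_r] at hn
      omega
    have h1 := R.dep_p v hv
    exact (ih (R.p v) (by omega)).step

/-- the ancestors of a vertex form a chain -/
theorem Anc.total {a b v : V} (h1 : R.Anc a v) (h2 : R.Anc b v) : R.Anc a b ∨ R.Anc b a := by
  obtain ⟨k, hk⟩ := h1
  obtain ⟨l, hl⟩ := h2
  rcases le_total k l with h | h
  · right
    refine ⟨l - k, ?_⟩
    rw [← hk, ← Function.iterate_add_apply, Nat.sub_add_cancel h, hl]
  · left
    refine ⟨k - l, ?_⟩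
    rw [← hl, ← Function.iterate_add_apply, Nat.sub_add_cancel h, hk]

theorem Anc.eq_of_dep {a b v : V} (h1 : R.Anc a v) (h2 : R.Anc b v) (hd : R.dep a = R.dep b) : a = b := by
  by_contra hne
  rcases h1.total h2 with h | h
  · have := h.dep_lt hne; omega
  · have := h.dep_lt (Ne.symm hne); omega

/-- the child of `a` towards `v` -/
theorem Anc.child {a v : V} (h : R.Anc a v) (hne : a ≠ v) : ∃ c, c ≠ R.r ∧ R.p c = a ∧ R.Anc c v := by
  obtain ⟨k, hk⟩ := h
  induction k generalizing v with
  | zero => exact absurd hk.symm hne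
  | succ k ih =>
    rw [Function.iterate_succ_apply] at hk
    by_cases h1 : R.p v = a
    · refine ⟨v, ?_, h1, Anc.refl R v⟩
      rintro rfl
      rw [R.p_r] at h1
      exact hne h1.symm
    · obtain ⟨c, h2, h3, h4⟩ := ih (fun h => h1 h.symm) hk
      exact ⟨c, h2, h3, h4.step⟩

variable (R)

theorem map_anc (e : V ≃ V) (a v : V) : (R.map e).Anc (e a) (e v) ↔ R.Anc a v := by
  unfold Anc
  simp only [map_iter, EmbeddingLike.apply_eq_iff_eq]

/-! ### subtrees and children -/

section Fin

variable [Fintype V]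

open Classical in
/-- the vertices of the subtree of `a` -/
noncomputable def sub (a : V) : Finset V := univ.filter (fun v => R.Anc a v)

open Classical in
/-- the children of `a` -/
noncomputable def kids (a : V) : Finset V := univ.filter (fun c => c ≠ R.r ∧ R.p c = a)

theorem mem_sub {a v : V} : v ∈ R.sub a ↔ R.Anc a v := by simp [sub]

theorem mem_kids {a c : V} : c ∈ R.kids a ↔ c ≠ R.r ∧ R.p c = a := by simp [kids]

theorem map_sub_card (e : V ≃ V) (a : V) : ((R.map e).sub (e a)).card = (R.sub a).card := by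
  classical
  have : (R.map e).sub (e a) = (R.sub a).map e.toEmbedding := by
    ext v
    simp only [mem_sub, mem_map, Equiv.coe_toEmbedding]
    constructor
    · intro h
      refine ⟨e.symm v, ?_, by simp⟩
      rw [← R.map_anc e]
      simpa using h
    · rintro ⟨w, hw, rfl⟩
      exact (R.map_anc e a w).2 hw
  rw [this, card_map]

theorem map_kids (e : V ≃ V) (a c : V) : e c ∈ (R.map e).kids (e a) ↔ c ∈ R.kids a := by
  simp [mem_kids, map_r]

theorem map_kids_card (e : V ≃ V) (a : V) : ((R.map e).kids (e a)).card = (R.kids a).card := by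
  classical
  have : (R.map e).kids (e a) = (R.kids a).map e.toEmbedding := by
    ext v
    simp only [mem_map, Equiv.coe_toEmbedding]
    constructor
    · intro h
      refine ⟨e.symm v, ?_, by simp⟩
      rw [← R.map_kids e]
      simpa using h
    · rintro ⟨w, hw, rfl⟩
      exact (R.map_kids e a w).2 hw
  rw [this, card_map]

theorem self_mem_sub (a : V) : a ∈ R.sub a := by rw [mem_sub]; exact Anc.refl R a

theorem sub_subset {a b : V} (h : R.Anc a b) : R.sub b ⊆ R.sub a := by
  intro v hv
  rw [mem_sub] at hv ⊢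
  exact h.trans hv

/-- `∑ (number of children) = n - 1` -/
theorem sum_kids : ∑ v : V, (R.kids v).card + 1 = Fintype.card V := by
  classical
  have h1 : (univ.filter (fun c : V => c ≠ R.r)).card = ∑ v : V, (R.kids v).card := by
    rw [card_eq_sum_card_fiberwise (f := R.p) (t := univ) (fun _ _ => by simp)]
    apply sum_congr rfl
    intro v _
    congr 1
    ext c
    simp [mem_kids]
  have h2 : (univ.filter (fun c : V => c ≠ R.r)) = univ.erase R.r := by
    ext c; simp
  rw [← h1, h2, card_erase_of_mem (mem_univ _), card_univ]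
  have h3 : 0 < Fintype.card V := Fintype.card_pos_iff.2 ⟨R.r⟩
  omega

end Fin

end RT

end Pool.Agent.Helper38K9.ST
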