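import Pool.Agent.Helper38K9.ST.Base

set_option autoImplicit false

/-! The number of the vertices with two large children. -/

namespace Pool.Agent.Helper38K9.ST.RT

open Finset

variable {V : Type} [Fintype V] (R : RT V) (K : ℕ)

open Classical in
/-- the children of `v` whose subtrees have at least `K` vertices -/
noncomputable def bkids (v : V) : Finset V := (R.kids v).filter (fun c => K ≤ (R.sub c).card)

open Classical in
/-- the vertices with at least two large children -/
noncomputable def branch : Finset V := univ.filter (fun v => 2 ≤ (R.bkids K v).card)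

theorem mem_bkids {v c : V} : c ∈ R.bkids K v ↔ (c ≠ R.r ∧ R.p c = v) ∧ K ≤ (R.sub c).card := by
  simp [bkids, mem_kids]

theorem mem_branch {v : V} : v ∈ R.branch K ↔ 2 ≤ (R.bkids K v).card := by simp [branch]

theorem map_bkids (e : V ≃ V) (a c : V) : e c ∈ (R.map e).bkids K (e a) ↔ c ∈ R.bkids K a := by
  rw [mem_bkids, mem_bkids, map_sub_card, map_p, map_r]
  simp

theorem branch_card : K * (R.branch K).card ≤ Fintype.card V := by
  classical
  set big : Finset V := univ.filter (fun v => K ≤ (R.sub v).card) with hbig
  have hb : ∀ v, v ∈ big ↔ K ≤ (R.sub v).card := fun v => by simp [hbig]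
  have hup : ∀ c v : V, R.Anc v c → c ∈ big → v ∈ big := by
    intro c v h hc
    rw [hb] at hc ⊢
    exact hc.trans (card_le_card (R.sub_subset h))
  have h1 : ∑ v ∈ big, (R.bkids K v).card ≤ big.card := by
    have h2 : (big.filter (fun c => c ≠ R.r)).card = ∑ v ∈ big, (R.bkids K v).card := by
      rw [card_eq_sum_card_fiberwise (f := R.p) (t := big)]
      · apply sum_congr rfl
        intro v _
        congr 1
        ext c
        simp only [mem_filter, mem_bkids, hb]
        tauto
      · intro c hc
        rw [mem_coe, mem_filter] at hc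
        exact hup c _ (Anc.p_self c) hc.1
    rw [← h2]
    exact card_le_card (filter_subset _ _)
  set L : Finset V := big.filter (fun v => (R.bkids K v).card = 0) with hL
  have hsub : R.branch K ⊆ big := by
    intro v hv
    rw [mem_branch] at hv
    obtain ⟨c, hc⟩ := card_pos.1 (show 0 < (R.bkids K v).card by omega)
    rw [mem_bkids] at hc
    exact hup c v ⟨1, hc.1.2⟩ ((hb c).2 hc.2)
  have h3 : big.card + (R.branch K).card ≤ ∑ v ∈ big, (R.bkids K v).card + L.card := by
    have e1 : (R.branch K).card = ∑ v ∈ big, (if v ∈ R.branch K then 1 else 0) := by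
      rw [← card_filter]
      congr 1
      ext v
      simp only [mem_filter]
      exact ⟨fun h => ⟨hsub h, h⟩, fun h => h.2⟩
    have e2 : L.card = ∑ v ∈ big, (if (R.bkids K v).card = 0 then 1 else 0) := by
      rw [hL, card_filter]
    rw [e1, e2, card_eq_sum_ones, ← sum_add_distrib, ← sum_add_distrib]
    apply sum_le_sum
    intro v _
    by_cases h : v ∈ R.branch K
    · have h' := (R.mem_branch K).1 h
      rw [if_pos h]
      split_ifs <;> omega
    · have h' : ¬ 2 ≤ (R.bkids K v).card := fun h' => h ((R.mem_branch K).2 h')
      rw [if_neg h]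
      split_ifs <;> omega
  have h4 : K * L.card ≤ Fintype.card V := by
    have hdis : (L : Set V).PairwiseDisjoint R.sub := by
      have key : ∀ v ∈ L, ∀ w ∈ L, v ≠ w → ¬ R.Anc v w := by
        intro v hv w hw hne hanc
        rw [hL, mem_filter] at hv hw
        obtain ⟨c, hc1, hc2, hc3⟩ := hanc.child hne
        have : c ∈ R.bkids K v := by
          rw [mem_bkids]
          exact ⟨⟨hc1, hc2⟩, ((hb w).1 hw.1).trans (card_le_card (R.sub_subset hc3))⟩
        have h5 := card_pos.2 ⟨c, this⟩
        omega
      intro v hv w hw hne
      rw [Function.onFun, Finset.disjoint_left]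
      intro x hx hx'
      rw [mem_sub] at hx hx'
      rcases hx.total hx' with h | h
      · exact key v hv w hw hne h
      · exact key w hw v hv hne.symm h
    calc K * L.card = ∑ _v ∈ L, K := by rw [sum_const, smul_eq_mul, mul_comm]
      _ ≤ ∑ v ∈ L, (R.sub v).card := by
          apply sum_le_sum
          intro v hv
          rw [hL, mem_filter, hb] at hv
          exact hv.1
      _ = (L.biUnion R.sub).card := (card_biUnion hdis).symm
      _ ≤ Fintype.card V := card_le_univ _
  have h5 : (R.branch K).card ≤ L.card := by omega
  exact (Nat.mul_le_mul_left K h5).trans h4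

end Pool.Agent.Helper38K9.ST.RT
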