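import Pool.Agent.Helper38K9.ST.Cfg

set_option autoImplicit false

/-! The isomorphism class of a tree of the family and a short code determine the score vector. -/

namespace Pool.Agent.Helper38K9.ST.Cfg

open Finset

variable {V : Type} [Fintype V] {G : SimpleGraph V} (C : Cfg G) (K : ℕ)

/-- the lowest ancestor in `B` -/
noncomputable def cr (hr : C.R.r ∈ C.B K) (v : V) : V := (RT.exists_low hr v).choose

theorem cr_spec (hr : C.R.r ∈ C.B K) (v : V) : C.R.Low (C.B K) v (C.cr K hr v) := (RT.exists_low hr v).choose_spec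

theorem cr_iff (hr : C.R.r ∈ C.B K) (v w : V) : C.cr K hr v = w ↔ C.R.Low (C.B K) v w := by
  constructor
  · rintro rfl; exact C.cr_spec K hr v
  · intro h; exact (C.cr_spec K hr v).unique h

/-- a number for each key -/
noncomputable def num (t : V × ℕ × ℕ) : ℕ := Nat.pair (Fintype.equivFin V t.1) (Nat.pair t.2.1 t.2.2)

theorem num_inj : Function.Injective (num (V := V)) := by
  rintro ⟨v, k, e⟩ ⟨v', k', e'⟩ h
  unfold num at h
  rw [Nat.pair_eq_pair, Nat.pair_eq_pair] at h
  obtain ⟨h1, h2, h3⟩ := h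
  simp only at h1 h2 h3
  have h4 : v = v' := (Fintype.equivFin V).injective (Fin.ext h1)
  rw [h4, h2, h3]

/-- the key of a vertex -/
noncomputable def ky (hr : C.R.r ∈ C.B K) (v : V) : V × ℕ × ℕ :=
  (C.cr K hr v, C.R.dep v, (C.R.kidsU C.U v).card)

/-- the numbers of the keys of the two places -/
noncomputable def fx (hr : C.R.r ∈ C.B K) (u : V) : ℕ := num (C.ky K hr (C.x u))
noncomputable def fy (hr : C.R.r ∈ C.B K) (u : V) : ℕ := num (C.ky K hr (C.y u))

theorem fx_ne_fy (hr : C.R.r ∈ C.B K) : ∀ u ∈ C.U, C.fx K hr u ≠ C.fy K hr u := by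
  intro u hu h
  have h1 := num_inj h
  unfold ky at h1
  rw [Prod.mk.injEq, Prod.mk.injEq] at h1
  rcases C.key u hu with h2 | h2
  · exact h2 h1.2.1
  · exact h2 h1.2.2

open Classical in
theorem score_eq_card (hr : C.R.r ∈ C.B K) (b : V → Bool) (κ : ℕ) :
    score C.U (C.fx K hr) (C.fy K hr) b κ = (C.U.filter (fun u => num (C.ky K hr (C.att b u)) = κ)).card := by
  unfold score
  congr 1
  apply filter_congr
  intro u _
  unfold fx fy att
  by_cases h : b u = true <;> simp [h]

open Classical in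
/-- the multiplicity bound -/
theorem mult {d : ℕ} (hd : 1 ≤ d) (hK : 1 ≤ K) (hdeg : ∀ v, (C.R.kids v).card ≤ d) (hr : C.R.r ∈ C.B K) (κ : ℕ) :
    (C.U.filter (fun u => C.fx K hr u = κ ∨ C.fy K hr u = κ)).card ≤ d * K := by
  rcases Finset.eq_empty_or_nonempty (C.U.filter (fun u => C.fx K hr u = κ ∨ C.fy K hr u = κ)) with h0 | ⟨u0, hu0⟩
  · rw [h0, card_empty]; exact Nat.zero_le _
  · obtain ⟨t, ht⟩ : ∃ t : V × ℕ × ℕ, num t = κ := by
      rw [mem_filter] at hu0
      rcases hu0.2 with h | h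
      · exact ⟨_, h⟩
      · exact ⟨_, h⟩
    set z : V → V := fun u => if C.fx K hr u = κ then C.x u else C.y u with hz
    have hz1 : ∀ u ∈ C.U.filter (fun u => C.fx K hr u = κ ∨ C.fy K hr u = κ), G.Adj u (z u) ∧ num (C.ky K hr (z u)) = κ := by
      intro u hu
      rw [mem_filter] at hu
      simp only [hz]
      by_cases h : C.fx K hr u = κ
      · rw [if_pos h]
        exact ⟨C.hx u hu.1, h⟩
      · rw [if_neg h]
        exact ⟨C.hy u hu.1, hu.2.resolve_left h⟩
    have hinj : Set.InjOn z (C.U.filter (fun u => C.fx K hr u = κ ∨ C.fy K hr u = κ) : Finset V) := by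
      intro u hu u' hu' h
      rw [mem_coe] at hu hu'
      have h1 := (hz1 u hu).1
      have h2 := (hz1 u' hu').1
      rw [mem_filter] at hu hu'
      exact C.sep u hu.1 u' hu'.1 _ h1 (h ▸ h2)
    rw [← card_image_of_injOn hinj]
    apply C.cell_card hd hK hdeg t.1
    intro v hv
    rw [mem_image] at hv
    obtain ⟨u, hu, rfl⟩ := hv
    obtain ⟨h1, h2⟩ := hz1 u hu
    rw [mem_filter] at hu
    refine ⟨fun h => C.ind u hu.1 _ h h1, ?_⟩
    rw [← ht] at h2
    have h3 := num_inj h2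
    rw [← C.cr_iff K hr, ← h3]
    rfl

open Classical in
theorem count (hr : C.R.r ∈ C.B K) (b : V → Bool) (w : V) (k e : ℕ) :
    (univ.filter (fun v => (C.tb b).Low (C.B K) v w ∧ (C.tb b).dep v = k ∧ e < ((C.tb b).kids v).card)).card =
      (univ.filter (fun v => v ∉ C.U ∧ C.R.Low (C.B K) v w ∧ C.R.dep v = k ∧ e < (C.R.kidsU C.U v).card)).card +
      (C.U.filter (fun u => C.ky K hr (C.att b u) = (w, k, e))).card := by
  have hinj : Set.InjOn (C.att b) (C.U.filter (fun u => C.ky K hr (C.att b u) = (w, k, e)) : Finset V) := by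
    intro u hu u' hu' h
    rw [mem_coe, mem_filter] at hu hu'
    exact C.att_inj b hu.1 hu'.1 h
  rw [← card_image_of_injOn hinj, ← card_union_of_disjoint]
  · congr 1
    ext v
    rw [mem_union, mem_filter, mem_filter, mem_image]
    simp only [mem_univ, true_and, mem_filter]
    by_cases h : v ∈ C.U
    · rw [C.tb_kids_mem b h]
      constructor
      · rintro ⟨-, -, h1⟩
        exact absurd h1 (Nat.not_lt_zero _)
      · rintro (⟨h1, -⟩ | ⟨u, ⟨h1, -⟩, h2⟩)
        · exact absurd h h1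
        · exact absurd h (h2 ▸ C.att_notMem b h1)
    · rw [C.tb_kids_not b h, C.tb_low b _ h, C.tb_dep_not b h]
      have h1 := C.att_card b v
      constructor
      · rintro ⟨h2, h3, h4⟩
        by_cases h5 : e < (C.R.kidsU C.U v).card
        · exact Or.inl ⟨h, h2, h3, h5⟩
        · right
          obtain ⟨u, hu⟩ := card_pos.1 (show 0 < (C.U.filter (fun u => C.att b u = v)).card by omega)
          rw [mem_filter] at hu
          refine ⟨u, ⟨hu.1, ?_⟩, hu.2⟩
          rw [hu.2]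
          unfold ky
          rw [(C.cr_iff K hr v w).2 h2, h3]
          have : (C.R.kidsU C.U v).card = e := by omega
          rw [this]
      · rintro (⟨-, h2, h3, h4⟩ | ⟨u, ⟨h2, h3⟩, h4⟩)
        · exact ⟨h2, h3, by omega⟩
        · rw [h4] at h3
          unfold ky at h3
          rw [Prod.mk.injEq, Prod.mk.injEq] at h3
          refine ⟨(C.cr_iff K hr v w).1 h3.1, h3.2.1, ?_⟩
          have h5 : 0 < (C.U.filter (fun u => C.att b u = v)).card := by
            apply card_pos.2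
            exact ⟨u, by rw [mem_filter]; exact ⟨h2, h4⟩⟩
          omega
  · rw [Finset.disjoint_left]
    intro v h1 h2
    rw [mem_filter] at h1
    rw [mem_image] at h2
    obtain ⟨u, hu, rfl⟩ := h2
    rw [mem_filter] at hu
    have h3 := hu.2
    unfold ky at h3
    rw [Prod.mk.injEq, Prod.mk.injEq] at h3
    omega

open Classical in
theorem count_map (b : V → Bool) (ψ : V ≃ V) (w : V) (k e : ℕ) :
    (univ.filter (fun y => ((C.tb b).map ψ).Low (ψ '' C.B K) y (ψ w) ∧ ((C.tb b).map ψ).dep y = k ∧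
      e < (((C.tb b).map ψ).kids y).card)).card =
    (univ.filter (fun v => (C.tb b).Low (C.B K) v w ∧ (C.tb b).dep v = k ∧ e < ((C.tb b).kids v).card)).card := by
  refine Eq.trans ?_ (card_map ψ.toEmbedding)
  congr 1
  ext y
  rw [mem_map]
  simp only [mem_filter, mem_univ, true_and, Equiv.coe_toEmbedding]
  obtain ⟨v, rfl⟩ := ψ.surjective y
  rw [RT.map_low, RT.map_dep, RT.map_kids_card]
  constructor
  · intro h
    exact ⟨v, h, rfl⟩
  · rintro ⟨v', h, h'⟩
    rwa [ψ.injective h'] at h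

theorem score_eq (hr : C.R.r ∈ C.B K) {b₁ b₂ : V → Bool} {ψ₁ ψ₂ : V ≃ V} (h : (C.tb b₁).map ψ₁ = (C.tb b₂).map ψ₂)
    (hB : ∀ v ∈ C.B K, ψ₁ v = ψ₂ v) :
    score C.U (C.fx K hr) (C.fy K hr) b₁ = score C.U (C.fx K hr) (C.fy K hr) b₂ := by
  classical
  funext κ
  rw [C.score_eq_card, C.score_eq_card]
  by_cases hκ : ∃ t : V × ℕ × ℕ, num t = κ
  · obtain ⟨⟨w, k, e⟩, rfl⟩ := hκ
    simp only [num_inj.eq_iff]
    by_cases hw : w ∈ C.B K
    · have h1 := C.count K hr b₁ w k e
      have h2 := C.count K hr b₂ w k e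
      rw [← C.count_map K b₁ ψ₁] at h1
      rw [← C.count_map K b₂ ψ₂] at h2
      have h3 : ψ₁ '' C.B K = ψ₂ '' C.B K := Set.image_congr hB
      rw [h, hB w hw, h3] at h1
      omega
    · have h1 : ∀ b : V → Bool, (C.U.filter (fun u => C.ky K hr (C.att b u) = (w, k, e))) = ∅ := by
        intro b
        rw [filter_eq_empty_iff]
        intro u _ h1
        unfold ky at h1
        rw [Prod.mk.injEq] at h1
        exact hw (h1.1 ▸ (C.cr_spec K hr (C.att b u)).1)
      rw [h1, h1]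
  · have h1 : ∀ b : V → Bool, (C.U.filter (fun u => num (C.ky K hr (C.att b u)) = κ)) = ∅ := by
      intro b
      rw [filter_eq_empty_iff]
      intro u _ h1
      exact hκ ⟨_, h1⟩
    rw [h1, h1]

open Classical in
/-- the code of an isomorphism -/
noncomputable def cd {d : ℕ} (ι : V → V → Fin (d + 1)) (ψ : V ≃ V) (y : V) (j : Fin (d + 1)) : Fin (d + 1) :=
  if h : ∃ w, w ∈ C.B K ∧ w ≠ C.R.r ∧ ψ (C.R.p w) = y ∧ ι (C.R.p w) w = j then ι y (ψ h.choose) else 0

theorem cd_val {d : ℕ} {ι : V → V → Fin (d + 1)} (hι : ∀ v, Set.InjOn (ι v) {w | G.Adj v w}) (ψ : V ≃ V) {w : V}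
    (hw : w ∈ C.B K) (hwr : w ≠ C.R.r) : C.cd K ι ψ (ψ (C.R.p w)) (ι (C.R.p w) w) = ι (ψ (C.R.p w)) (ψ w) := by
  have hex : ∃ w', w' ∈ C.B K ∧ w' ≠ C.R.r ∧ ψ (C.R.p w') = ψ (C.R.p w) ∧ ι (C.R.p w') w' = ι (C.R.p w) w :=
    ⟨w, hw, hwr, rfl, rfl⟩
  unfold cd
  rw [dif_pos hex]
  have h1 := hex.choose_spec
  generalize hex.choose = w0 at h1 ⊢
  have h2 : C.R.p w0 = C.R.p w := ψ.injective h1.2.2.1
  have h3 : w0 = w := by
    apply hι (C.R.p w)
    · show G.Adj (C.R.p w) w0
      rw [← h2]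
      exact (C.hG _ h1.2.1).symm
    · exact (C.hG _ hwr).symm
    · have h4 := h1.2.2.2
      rw [h2] at h4
      exact h4
  rw [h3]

theorem mem_bkids_map (b : V → Bool) (ψ : V ≃ V) {w : V} (hw : w ∈ C.B K) (hwr : w ≠ C.R.r) :
    ψ w ∈ ((C.tb b).map ψ).bkids K (ψ (C.R.p w)) := by
  rw [RT.map_bkids, RT.mem_bkids, C.tb_p_not b hw.1]
  exact ⟨⟨hwr, rfl⟩, hw.2.trans (C.sz_le b w)⟩

theorem decode {d : ℕ} {ι : V → V → Fin (d + 1)} (hι : ∀ v, Set.InjOn (ι v) {w | G.Adj v w})
    {b₁ b₂ : V → Bool} {ψ₁ ψ₂ : V ≃ V} (h : (C.tb b₁).map ψ₁ = (C.tb b₂).map ψ₂)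
    (hle : ((C.tb b₁).map ψ₁).gr ≤ G)
    (hcd : ∀ y ∈ ((C.tb b₁).map ψ₁).branch K, C.cd K ι ψ₁ y = C.cd K ι ψ₂ y) :
    ∀ v ∈ C.B K, ψ₁ v = ψ₂ v := by
  intro v
  obtain ⟨n, hn⟩ : ∃ n, n = C.R.dep v := ⟨_, rfl⟩
  induction n generalizing v with
  | zero =>
    intro _
    have h1 : ((C.tb b₁).map ψ₁).r = ((C.tb b₂).map ψ₂).r := by rw [h]
    rw [C.R.dep_zero hn.symm]
    exact h1
  | succ n ih =>
    intro hv
    have hvr : v ≠ C.R.r := by
      rintro rfl
      rw [C.R.dep_r] at hn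
      omega
    have h1 := C.R.dep_p v hvr
    have h2 := ih (C.R.p v) (by omega) (C.B_up (RT.Anc.p_self v) hv)
    have m1 := C.mem_bkids_map K b₁ ψ₁ hv hvr
    have m2 := C.mem_bkids_map K b₂ ψ₂ hv hvr
    rw [← h, ← h2] at m2
    set y := ψ₁ (C.R.p v) with hy
    by_cases hb : y ∈ ((C.tb b₁).map ψ₁).branch K
    · have h3 := congrFun (hcd y hb) (ι (C.R.p v) v)
      have h4 := C.cd_val K hι ψ₁ hv hvr
      have h5 := C.cd_val K hι ψ₂ hv hvr
      rw [← h2] at h5
      rw [h4, h5] at h3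
      have adj : ∀ z, z ∈ ((C.tb b₁).map ψ₁).bkids K y → G.Adj y z := by
        intro z hz
        rw [RT.mem_bkids] at hz
        exact hle (Or.inr hz.1)
      exact hι y (adj _ m1) (adj _ m2) h3
    · rw [RT.mem_branch] at hb
      exact card_le_one.1 (by omega) _ m1 _ m2

theorem exists_iota {d : ℕ} (hd : ∀ v, {w | G.Adj v w}.ncard ≤ d) :
    ∃ ι : V → V → Fin (d + 1), ∀ v, Set.InjOn (ι v) {w | G.Adj v w} := by
  classical
  have key : ∀ v, ∃ f : V → Fin (d + 1), Set.InjOn f {w | G.Adj v w} := by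
    intro v
    have h1 : (univ.filter (fun w => G.Adj v w)).card ≤ d := by
      have := hd v
      rwa [show {w | G.Adj v w} = ((univ.filter (fun w => G.Adj v w) : Finset V) : Set V) by ext; simp,
        Set.ncard_coe_finset] at this
    refine ⟨fun w => if h : w ∈ univ.filter (fun w => G.Adj v w) then
      Fin.castLE (by omega) ((univ.filter (fun w => G.Adj v w)).equivFin ⟨w, h⟩) else 0, ?_⟩
    intro w hw w' hw' h
    have hw1 : w ∈ univ.filter (fun w => G.Adj v w) := by simpa using hw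
    have hw1' : w' ∈ univ.filter (fun w => G.Adj v w) := by simpa using hw'
    simp only [dif_pos hw1, dif_pos hw1'] at h
    have h2 := (univ.filter (fun w => G.Adj v w)).equivFin.injective (Fin.castLE_injective _ h)
    exact congrArg Subtype.val h2
  choose f hf using key
  exact ⟨f, hf⟩

/-- the number of score vectors is bounded by the number of isomorphism classes -/
theorem classes {d : ℕ} (hd : ∀ v, {w | G.Adj v w}.ncard ≤ d) (hK : 1 ≤ K) (hr : C.R.r ∈ C.B K)
    {Q : Type} [Finite Q] (q : (V → Bool) → Q)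
    (hq : ∀ b b', q b = q b' → Nonempty ((C.tb b).gr ≃g (C.tb b').gr)) :
    (Set.range (score C.U (C.fx K hr) (C.fy K hr))).ncard ≤
      Nat.card Q * (Fintype.card V * ((d + 1) ^ (d + 1)) ^ (Fintype.card V / K)) := by
  classical
  haveI := Fintype.ofFinite Q
  obtain ⟨ι, hι⟩ := exists_iota hd
  -- representatives
  have hrep : ∀ b : V → Bool, q (Function.invFun q (q b)) = q b := fun b => Function.invFun_eq ⟨b, rfl⟩
  have hψ : ∀ b : V → Bool, Nonempty ((C.tb b).gr ≃g (C.tb (Function.invFun q (q b))).gr) :=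
    fun b => hq _ _ (hrep b).symm
  set ψ : (V → Bool) → (V ≃ V) := fun b => (hψ b).some.toEquiv with hψd
  have hgr : ∀ b, ((C.tb b).map (ψ b)).gr = (C.tb (Function.invFun q (q b))).gr :=
    fun b => RT.map_gr_of_iso (hψ b).some
  set R0 : Q → V → RT V := fun c z =>
    if h : ∃ b, q b = c ∧ ψ b C.R.r = z then (C.tb h.choose).map (ψ h.choose) else C.R with hR0
  have hR : ∀ b, R0 (q b) (ψ b C.R.r) = (C.tb b).map (ψ b) := by
    intro b
    have hex : ∃ b', q b' = q b ∧ ψ b' C.R.r = ψ b C.R.r := ⟨b, rfl, rfl⟩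
    simp only [hR0]
    rw [dif_pos hex]
    have h1 := hex.choose_spec
    apply RT.ext_gr
    · exact h1.2
    · rw [hgr, hgr, h1.1]
  -- the codes
  set cod : (V → Bool) → V → Fin (d + 1) → Fin (d + 1) := fun b y =>
    if y ∈ (R0 (q b) (ψ b C.R.r)).branch K then C.cd K ι (ψ b) y else fun _ => 0 with hcod
  set Θ : (V → Bool) → Q × V × (V → Fin (d + 1) → Fin (d + 1)) := fun b => (q b, ψ b C.R.r, cod b) with hΘ
  have hfac : ∀ b b', Θ b = Θ b' → score C.U (C.fx K hr) (C.fy K hr) b = score C.U (C.fx K hr) (C.fy K hr) b' := by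
    intro b b' h
    simp only [hΘ, Prod.mk.injEq] at h
    obtain ⟨h1, h2, h3⟩ := h
    have h4 : (C.tb b).map (ψ b) = (C.tb b').map (ψ b') := by
      rw [← hR, ← hR, h1, h2]
    apply C.score_eq K hr h4
    apply C.decode K hι h4
    · rw [hgr]; exact C.tb_le _
    · intro y hy
      have h5 := congrFun h3 y
      simp only [hcod] at h5
      rw [hR, if_pos hy, hR, ← h4, if_pos hy] at h5
      exact h5
  -- the number of the codes
  set P : Q × V → Finset (V → Fin (d + 1) → Fin (d + 1)) := fun c =>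
    Fintype.piFinset (fun y => if y ∈ (R0 c.1 c.2).branch K then univ else {fun _ => 0}) with hP
  set T : Finset (Q × V × (V → Fin (d + 1) → Fin (d + 1))) :=
    (univ : Finset (Q × V)).biUnion (fun c => (P c).image (fun f => (c.1, c.2, f))) with hT
  have hmem : ∀ b, Θ b ∈ T := by
    intro b
    rw [hT, mem_biUnion]
    refine ⟨(q b, ψ b C.R.r), mem_univ _, ?_⟩
    rw [mem_image]
    refine ⟨cod b, ?_, rfl⟩
    rw [hP, Fintype.mem_piFinset]
    intro y
    simp only [hcod]
    by_cases hy : y ∈ (R0 (q b) (ψ b C.R.r)).branch K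
    · rw [if_pos hy, if_pos hy]; exact mem_univ _
    · rw [if_neg hy, if_neg hy, mem_singleton]
  have hPc : ∀ c, (P c).card ≤ ((d + 1) ^ (d + 1)) ^ (Fintype.card V / K) := by
    intro c
    rw [hP, Fintype.card_piFinset]
    have h1 : ∀ y, (if y ∈ (R0 c.1 c.2).branch K then (univ : Finset (Fin (d + 1) → Fin (d + 1))) else {fun _ => 0}).card
        = if y ∈ (R0 c.1 c.2).branch K then (d + 1) ^ (d + 1) else 1 := by
      intro y
      split_ifs
      · rw [card_univ, Fintype.card_fun, Fintype.card_fin]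
      · rw [card_singleton]
    rw [prod_congr rfl (fun y _ => h1 y), prod_ite, prod_const_one, mul_one, prod_const]
    apply Nat.pow_le_pow_right (by positivity)
    rw [Nat.le_div_iff_mul_le (by omega), mul_comm]
    refine le_trans (Nat.mul_le_mul_left K (card_le_card ?_)) ((R0 c.1 c.2).branch_card K)
    intro y hy
    rw [mem_filter] at hy
    exact hy.2
  have hTc : T.card ≤ Nat.card Q * (Fintype.card V * ((d + 1) ^ (d + 1)) ^ (Fintype.card V / K)) := by
    have h1 : T.card ≤ (univ : Finset (Q × V)).card * ((d + 1) ^ (d + 1)) ^ (Fintype.card V / K) := by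
      apply card_biUnion_le_card_mul
      intro c _
      exact card_image_le.trans (hPc c)
    rw [card_univ, Fintype.card_prod, mul_assoc] at h1
    rw [Nat.card_eq_fintype_card]
    exact h1
  refine le_trans ?_ hTc
  -- the scores factor through the codes
  have h1 : Set.range (score C.U (C.fx K hr) (C.fy K hr)) ⊆
      (fun t => score C.U (C.fx K hr) (C.fy K hr) (Function.invFun Θ t)) '' (T : Set (Q × V × (V → Fin (d + 1) → Fin (d + 1)))) := by
    rintro s ⟨b, rfl⟩
    refine ⟨Θ b, hmem b, ?_⟩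
    exact hfac _ _ (Function.invFun_eq ⟨b, rfl⟩)
  calc (Set.range (score C.U (C.fx K hr) (C.fy K hr))).ncard
      ≤ ((fun t => score C.U (C.fx K hr) (C.fy K hr) (Function.invFun Θ t)) '' (T : Set (Q × V × (V → Fin (d + 1) → Fin (d + 1))))).ncard :=
        Set.ncard_le_ncard h1 (T.finite_toSet.image _)
    _ ≤ (T : Set (Q × V × (V → Fin (d + 1) → Fin (d + 1)))).ncard := Set.ncard_image_le T.finite_toSet
    _ = T.card := Set.ncard_coe_finset T

end Pool.Agent.Helper38K9.ST.Cfg
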