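import Pool.Agent.Helper38K9.ST.Near

set_option autoImplicit false

/-! A spanning tree with the largest sum of depths among those that contain the stars at `S`. -/

namespace Pool.Agent.Helper38K9.ST

open Finset

variable {V : Type}

open Classical in
/-- hang the subtree of `y` below `u` -/
noncomputable def RT.rep (R : RT V) (y u : V) (hy : y ≠ R.r) (hu : ¬ R.Anc y u) : RT V where
  r := R.r
  p := fun v => if v = y then u else R.p v
  dep := fun v => if R.Anc y v then R.dep v - R.dep y + R.dep u + 1 else R.dep v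
  p_r := by rw [if_neg (Ne.symm hy), R.p_r]
  dep_r := by
    rw [if_neg, R.dep_r]
    intro h
    exact hy (R.dep_zero (by have := h.dep_le; rw [R.dep_r] at this; omega))
  dep_p := by
    intro v hv
    by_cases h1 : v = y
    · subst h1
      rw [if_pos (RT.Anc.refl R v), if_pos rfl, if_neg hu]
      omega
    · rw [if_neg h1]
      by_cases h2 : R.Anc y v
      · have h3 := h2.of_ne (Ne.symm h1)
        rw [if_pos h2, if_pos h3]
        have h4 := R.dep_p v hv
        have h5 := h3.dep_le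
        omega
      · have h3 : ¬ R.Anc y (R.p v) := fun h => h2 h.step
        rw [if_neg h2, if_neg h3]
        exact R.dep_p v hv

theorem RT.rep_sum [Fintype V] (R : RT V) (y u : V) (hy : y ≠ R.r) (hu : ¬ R.Anc y u) (hd : R.dep y ≤ R.dep u) :
    ∑ v, R.dep v < ∑ v, (R.rep y u hy hu).dep v := by
  classical
  apply sum_lt_sum
  · intro v _
    show R.dep v ≤ if R.Anc y v then R.dep v - R.dep y + R.dep u + 1 else R.dep v
    split_ifs with h
    · have := h.dep_le; omega
    · exact le_rfl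
  · refine ⟨y, mem_univ _, ?_⟩
    show R.dep y < if R.Anc y y then R.dep y - R.dep y + R.dep u + 1 else R.dep y
    rw [if_pos (RT.Anc.refl R y)]
    omega

/-- the extremal trees -/
structure Mx [Fintype V] (G : SimpleGraph V) (d : ℕ) where
  R : RT V
  S : Finset V
  hd : 3 ≤ d
  hreg : ∀ v, (N G v).card = d
  hle : R.gr ≤ G
  hS : ∀ s ∈ S, ∀ s' ∈ S, near G 4 s s' → s = s'
  hrS : R.r ∉ S
  hF : ∀ s ∈ S, ∀ w, G.Adj s w → R.gr.Adj s w
  hmax : ∀ R' : RT V, R'.r = R.r → R'.gr ≤ G → (∀ s ∈ S, ∀ w, G.Adj s w → R'.gr.Adj s w) →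
    ∑ v, R'.dep v ≤ ∑ v, R.dep v

namespace Mx

variable [Fintype V] {G : SimpleGraph V} {d : ℕ} (M : Mx G d)

/-- leaves -/
def Leaf (u : V) : Prop := u ≠ M.R.r ∧ M.R.kids u = ∅

open Classical in
/-- the number of the children of `z` other than `u` -/
noncomputable def kc (u z : V) : ℕ := ((M.R.kids z).erase u).card

/-- two neighbours with different keys -/
def Good (u : V) : Prop := M.Leaf u ∧ ∃ z z', G.Adj u z ∧ G.Adj u z' ∧
  (M.R.dep z ≠ M.R.dep z' ∨ M.kc u z ≠ M.kc u z')

theorem adj_p {v : V} (hv : v ≠ M.R.r) : G.Adj v (M.R.p v) := M.hle (M.R.adj_p hv)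

theorem leaf_adj {u z : V} (hu : M.Leaf u) (h : M.R.gr.Adj u z) : z = M.R.p u := by
  rcases h with ⟨-, h⟩ | ⟨h1, h2⟩
  · exact h.symm
  · exfalso
    have : z ∈ M.R.kids u := by rw [RT.mem_kids]; exact ⟨h1, h2⟩
    rw [hu.2] at this
    exact notMem_empty _ this

theorem leaf_notMem {u : V} (hu : M.Leaf u) : u ∉ M.S := by
  intro h
  have h1 : N G u ⊆ {M.R.p u} := by
    intro z hz
    rw [mem_N] at hz
    rw [mem_singleton]
    exact M.leaf_adj hu (M.hF u h z hz)
  have h2 := card_le_card h1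
  rw [M.hreg, card_singleton] at h2
  have := M.hd
  omega

theorem kids_S {s : V} (hs : s ∈ M.S) : (M.R.kids s).card = d - 1 := by
  classical
  have hsr : s ≠ M.R.r := fun h => M.hrS (h ▸ hs)
  have h1 : N G s = insert (M.R.p s) (M.R.kids s) := by
    ext w
    rw [mem_N, mem_insert, RT.mem_kids]
    constructor
    · intro h
      rcases M.hF s hs w h with ⟨-, h2⟩ | ⟨h1, h2⟩
      · exact Or.inl h2.symm
      · exact Or.inr ⟨h1, h2⟩
    · rintro (rfl | ⟨h1, h2⟩)
      · exact M.adj_p hsr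
      · rw [← h2]; exact (M.adj_p h1).symm
  have h2 : M.R.p s ∉ M.R.kids s := by
    intro h
    rw [RT.mem_kids] at h
    have h3 := M.R.dep_p s hsr
    have h4 := M.R.dep_p _ h.1
    rw [h.2] at h4
    omega
  have h3 := M.hreg s
  rw [h1, card_insert_of_notMem h2] at h3
  omega

open Classical in
/-- the structure of the bad leaves -/
theorem bad_str {u : V} (hu : M.Leaf u) (hbad : ¬ M.Good u) :
    ∃ s ∈ M.S, M.R.kids s = (N G u).erase (M.R.p u) := by
  have hkey : ∀ z z', G.Adj u z → G.Adj u z' → M.R.dep z = M.R.dep z' := by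
    intro z z' h h'
    by_contra hne
    exact hbad ⟨hu, z, z', h, h', Or.inl hne⟩
  have hpu : G.Adj u (M.R.p u) := M.adj_p hu.1
  have huS := M.leaf_notMem hu
  -- all other neighbours are children of vertices of `S`
  have h1 : ∀ z ∈ (N G u).erase (M.R.p u), z ≠ M.R.r ∧ M.R.p z ∈ M.S := by
    intro z hz
    rw [mem_erase, mem_N] at hz
    have hdz := hkey z _ hz.2 hpu
    have hdu := M.R.dep_p u hu.1
    have hzr : z ≠ M.R.r := by
      rintro rfl
      rw [M.R.dep_r] at hdz
      exact hz.1 (M.R.dep_zero hdz.symm).symm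
    have hanc : ¬ M.R.Anc z u := by
      intro h
      exact hz.1 (h.eq_of_dep (RT.Anc.p_self u) hdz)
    refine ⟨hzr, ?_⟩
    by_contra hpz
    have hzS : z ∉ M.S := by
      intro h
      have h2 := M.hF z h u hz.2.symm
      exact hz.1 (M.leaf_adj hu h2.symm)
    have h3 := M.hmax (M.R.rep z u hzr hanc) rfl ?_ ?_
    · have h4 := M.R.rep_sum z u hzr hanc (by omega)
      omega
    · have key : ∀ v w : V, v ≠ M.R.r → (M.R.rep z u hzr hanc).p v = w → G.Adj v w := by
        intro v w hv h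
        have h' : (if v = z then u else M.R.p v) = w := h
        by_cases hvz : v = z
        · rw [if_pos hvz] at h'
          rw [← h', hvz]; exact hz.2.symm
        · rw [if_neg hvz] at h'
          rw [← h']; exact M.adj_p hv
      intro v w h
      rcases h with ⟨h1, h2⟩ | ⟨h1, h2⟩
      · exact key v w h1 h2
      · exact (key w v h1 h2).symm
    · intro s hs w hw
      have hpne : ∀ v, v ≠ z → (M.R.rep z u hzr hanc).p v = M.R.p v := by
        intro v hv
        show (if v = z then u else M.R.p v) = M.R.p v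
        rw [if_neg hv]
      rcases M.hF s hs w hw with ⟨h4, h5⟩ | ⟨h4, h5⟩
      · left
        refine ⟨h4, ?_⟩
        rw [hpne s (fun h => hzS (h ▸ hs)), h5]
      · right
        refine ⟨h4, ?_⟩
        rw [hpne w (fun h => hpz (by rw [← h, h5]; exact hs)), h5]
  -- they have the same parent
  have h2 : ((N G u).erase (M.R.p u)).card = d - 1 := by
    rw [card_erase_of_mem (mem_N.2 hpu), M.hreg]
  obtain ⟨z0, hz0⟩ := card_pos.1 (show 0 < ((N G u).erase (M.R.p u)).card by have := M.hd; omega)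
  refine ⟨M.R.p z0, (h1 z0 hz0).2, ?_⟩
  have h3 : (N G u).erase (M.R.p u) ⊆ M.R.kids (M.R.p z0) := by
    intro z hz
    rw [RT.mem_kids]
    refine ⟨(h1 z hz).1, ?_⟩
    apply M.hS _ (h1 z hz).2 _ (h1 z0 hz0).2
    rw [mem_erase, mem_N] at hz
    have hz0' := hz0
    rw [mem_erase, mem_N] at hz0'
    have e1 : near G 1 (M.R.p z) z := (near.adj (M.adj_p (h1 z (by rw [mem_erase, mem_N]; exact hz)).1)).symm
    have e2 : near G 1 z u := near.adj hz.2.symm
    have e3 : near G 1 u z0 := near.adj hz0'.2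
    have e4 : near G 1 z0 (M.R.p z0) := near.adj (M.adj_p (h1 z0 hz0).1)
    exact ((e1.trans e2).trans (e3.trans e4)).mono (by omega)
  exact (eq_of_subset_of_card_le h3 (by rw [M.kids_S (h1 z0 hz0).2, h2])).symm

open Classical in
/-- the vertex of `S` of a bad leaf -/
noncomputable def sg (u : V) : V :=
  if h : ∃ s ∈ M.S, M.R.kids s = (N G u).erase (M.R.p u) then h.choose else u

open Classical in
theorem sg_spec {u : V} (hu : M.Leaf u) (hbad : ¬ M.Good u) :
    M.sg u ∈ M.S ∧ M.R.kids (M.sg u) = (N G u).erase (M.R.p u) := by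
  have h := M.bad_str hu hbad
  unfold sg
  rw [dif_pos h]
  exact h.choose_spec

/-- the keys around a bad leaf -/
theorem bad_keys {u z : V} (hu : M.Leaf u) (hbad : ¬ M.Good u) (hz : z ∈ M.R.kids (M.sg u)) :
    G.Adj u z ∧ z ≠ M.R.p u ∧ M.R.dep z = M.R.dep (M.R.p u) ∧
      (M.R.kids z).card + 1 = (M.R.kids (M.R.p u)).card ∧ M.R.dep u = M.R.dep z + 1 := by
  classical
  obtain ⟨-, h2⟩ := M.sg_spec hu hbad
  have hz' := hz
  rw [h2, mem_erase, mem_N] at hz'
  have hpu : G.Adj u (M.R.p u) := M.adj_p hu.1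
  have hkey : M.R.dep z = M.R.dep (M.R.p u) ∧ M.kc u z = M.kc u (M.R.p u) := by
    constructor
    · by_contra hne
      exact hbad ⟨hu, z, _, hz'.2, hpu, Or.inl hne⟩
    · by_contra hne
      exact hbad ⟨hu, z, _, hz'.2, hpu, Or.inr hne⟩
  have hdu := M.R.dep_p u hu.1
  refine ⟨hz'.2, hz'.1, hkey.1, ?_, by omega⟩
  have h3 := hkey.2
  unfold kc at h3
  have h4 : u ∉ M.R.kids z := by
    intro h
    rw [RT.mem_kids] at h
    exact hz'.1 h.2.symm
  have h5 : u ∈ M.R.kids (M.R.p u) := by
    rw [RT.mem_kids]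
    exact ⟨hu.1, rfl⟩
  rw [erase_eq_of_notMem h4, card_erase_of_mem h5] at h3
  have h6 : 0 < (M.R.kids (M.R.p u)).card := card_pos.2 ⟨u, h5⟩
  omega

/-- a child of `sg u` is adjacent to few bad leaves -/
theorem bad_fiber (T : Finset V) (s z : V) (hs : s ∈ M.S) (hz : z ∈ M.R.kids s)
    (hT : ∀ u ∈ T, M.Leaf u ∧ ¬ M.Good u ∧ M.sg u = s) : 1 + (M.R.kids z).card + T.card ≤ d := by
  classical
  have hz' := hz
  rw [RT.mem_kids] at hz'
  have h1 : insert s (M.R.kids z ∪ T) ⊆ N G z := by
    intro w hw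
    rw [mem_insert, mem_union] at hw
    rw [mem_N]
    rcases hw with rfl | hw | hw
    · rw [← hz'.2]; exact M.adj_p hz'.1
    · rw [RT.mem_kids] at hw
      rw [← hw.2]; exact (M.adj_p hw.1).symm
    · obtain ⟨a1, a2, a3⟩ := hT w hw
      exact (M.bad_keys a1 a2 (by rw [a3]; exact hz)).1.symm
  have h2 : Disjoint (M.R.kids z) T := by
    rw [Finset.disjoint_left]
    intro w hw hw'
    obtain ⟨a1, a2, a3⟩ := hT w hw'
    rw [RT.mem_kids] at hw
    exact (M.bad_keys a1 a2 (by rw [a3]; exact hz)).2.1 hw.2.symm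
  have h3 : s ∉ M.R.kids z ∪ T := by
    rw [mem_union]
    rintro (h | h)
    · rw [RT.mem_kids] at h
      have e1 := M.R.dep_p s h.1
      have e2 := M.R.dep_p z hz'.1
      rw [h.2] at e1
      rw [hz'.2] at e2
      omega
    · exact M.leaf_notMem (hT s h).1 hs
  have h4 := card_le_card h1
  rw [card_insert_of_notMem h3, card_union_of_disjoint h2, M.hreg] at h4
  omega

end Mx

end Pool.Agent.Helper38K9.ST
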