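import Pool.Agent.Helper38K9.ST.Branch

set_option autoImplicit false

/-! The lowest ancestor in a set of vertices. -/

namespace Pool.Agent.Helper38K9.ST.RT

open Finset

variable {V : Type} (R : RT V)

/-- `w` is the first ancestor of `v` in `B` -/
def Low (B : Set V) (v w : V) : Prop := w ∈ B ∧ ∃ k, R.p^[k] v = w ∧ ∀ j < k, R.p^[j] v ∉ B

variable {R}

theorem Low.unique {B : Set V} {v w w' : V} (h : R.Low B v w) (h' : R.Low B v w') : w = w' := by
  obtain ⟨h1, k, h2, h3⟩ := h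
  obtain ⟨h1', k', h2', h3'⟩ := h'
  rcases lt_trichotomy k k' with h | h | h
  · exact absurd h1 (h2 ▸ h3' k h)
  · subst h; rw [← h2, h2']
  · exact absurd h1' (h2' ▸ h3 k' h)

theorem Low.anc {B : Set V} {v w : V} (h : R.Low B v w) : R.Anc w v := ⟨_, h.2.choose_spec.1⟩

theorem exists_low {B : Set V} (hr : R.r ∈ B) (v : V) : ∃ w, R.Low B v w := by
  classical
  obtain ⟨k, hk⟩ := Anc.root (R := R) v
  have hex : ∃ k, R.p^[k] v ∈ B := ⟨k, by rw [hk]; exact hr⟩
  exact ⟨R.p^[Nat.find hex] v, Nat.find_spec hex, Nat.find hex, rfl, fun j hj => Nat.find_min hex hj⟩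

theorem low_self {B : Set V} {v : V} (hv : v ∈ B) : R.Low B v v :=
  ⟨hv, 0, rfl, fun j hj => absurd hj (Nat.not_lt_zero j)⟩

/-- if `v` is not its own lowest ancestor in `B` then it lies below a child outside of `B` -/
theorem Low.child {B : Set V} {v w : V} (h : R.Low B v w) (hne : w ≠ v) :
    ∃ c, c ≠ R.r ∧ R.p c = w ∧ R.Anc c v ∧ c ∉ B := by
  obtain ⟨c, h1, h2, h3⟩ := h.anc.child hne
  refine ⟨c, h1, h2, h3, ?_⟩
  obtain ⟨j, hj⟩ := h3
  obtain ⟨hw, k, hk, hk'⟩ := h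
  have hjk : j < k := by
    by_contra hcon
    have h4 : R.Anc c w := ⟨j - k, by rw [← hk, ← Function.iterate_add_apply, Nat.sub_add_cancel (by omega), hj]⟩
    have h5 : R.Anc w c := ⟨1, h2⟩
    have h6 := h4.antisymm h5
    rw [← h6] at h2
    exact R.p_ne h1 h2
  rw [← hj]
  exact hk' j hjk

theorem map_low (R : RT V) (e : V ≃ V) (B : Set V) (v w : V) : (R.map e).Low (e '' B) (e v) (e w) ↔ R.Low B v w := by
  unfold Low
  have h : ∀ x, e x ∈ e '' B ↔ x ∈ B := fun x => e.injective.mem_set_image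
  simp only [map_iter, h, EmbeddingLike.apply_eq_iff_eq]

end Pool.Agent.Helper38K9.ST.RT
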