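import Pool.Agent.Helper38K9.ST.Base

set_option autoImplicit false

/-! Separated sets of vertices, and rooted spanning trees that contain the stars at a separated set. -/

namespace Pool.Agent.Helper38K9.ST

open Finset

variable {V : Type}

/-- there is a walk of length at most `k` -/
def near (G : SimpleGraph V) (k : ℕ) (v w : V) : Prop := ∃ p : G.Walk v w, p.length ≤ k

variable {G : SimpleGraph V}

theorem near.refl (k : ℕ) (v : V) : near G k v v := ⟨SimpleGraph.Walk.nil, by simp⟩

theorem near.symm {k : ℕ} {v w : V} (h : near G k v w) : near G k w v := by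
  obtain ⟨p, hp⟩ := h
  exact ⟨p.reverse, by rw [SimpleGraph.Walk.length_reverse]; exact hp⟩

theorem near.trans {k l : ℕ} {u v w : V} (h : near G k u v) (h' : near G l v w) : near G (k + l) u w := by
  obtain ⟨p, hp⟩ := h
  obtain ⟨q, hq⟩ := h'
  exact ⟨p.append q, by rw [SimpleGraph.Walk.length_append]; omega⟩

theorem near.mono {k l : ℕ} (hkl : k ≤ l) {v w : V} (h : near G k v w) : near G l v w := by
  obtain ⟨p, hp⟩ := h
  exact ⟨p, hp.trans hkl⟩

theorem near.adj {v w : V} (h : G.Adj v w) : near G 1 v w := ⟨h.toWalk, by simp⟩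

variable [Fintype V]

open Classical in
/-- the neighbours -/
noncomputable def N (G : SimpleGraph V) (v : V) : Finset V := univ.filter (fun w => G.Adj v w)

theorem mem_N {v w : V} : w ∈ N G v ↔ G.Adj v w := by simp [N]

open Classical in
theorem near_card {d : ℕ} (hd : ∀ v, (N G v).card ≤ d) (k : ℕ) (v : V) :
    (univ.filter (fun w => near G k v w)).card ≤ (d + 1) ^ k := by
  induction k generalizing v with
  | zero =>
    rw [pow_zero, card_le_one]
    intro w hw w' hw'
    rw [mem_filter] at hw hw'
    obtain ⟨-, p, hp⟩ := hw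
    obtain ⟨-, p', hp'⟩ := hw'
    have h1 := SimpleGraph.Walk.eq_of_length_eq_zero (Nat.le_zero.1 hp)
    have h2 := SimpleGraph.Walk.eq_of_length_eq_zero (Nat.le_zero.1 hp')
    rw [← h1, ← h2]
  | succ k ih =>
    have h1 : univ.filter (fun w => near G (k + 1) v w) ⊆
        (insert v (N G v)).biUnion (fun v' => univ.filter (fun w => near G k v' w)) := by
      intro w hw
      rw [mem_filter] at hw
      obtain ⟨-, p, hp⟩ := hw
      rw [mem_biUnion]
      cases p with
      | nil => exact ⟨v, mem_insert_self _ _, by rw [mem_filter]; exact ⟨mem_univ _, near.refl k v⟩⟩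
      | cons h q =>
        rename_i v'
        refine ⟨v', mem_insert_of_mem (mem_N.2 h), ?_⟩
        rw [mem_filter]
        rw [SimpleGraph.Walk.length_cons] at hp
        exact ⟨mem_univ _, q, by omega⟩
    have h2 : (insert v (N G v)).card ≤ d + 1 := (card_insert_le _ _).trans (by have := hd v; omega)
    calc _ ≤ _ := card_le_card h1
      _ ≤ (insert v (N G v)).card * (d + 1) ^ k := card_biUnion_le_card_mul _ _ _ fun v' _ => ih v'
      _ ≤ (d + 1) * (d + 1) ^ k := Nat.mul_le_mul_right _ h2
      _ = _ := by ring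

/-- large separated subsets -/
theorem exists_sep {d : ℕ} (hd : ∀ v, (N G v).card ≤ d) (k : ℕ) (X : Finset V) :
    ∃ Y ⊆ X, (∀ v ∈ Y, ∀ w ∈ Y, near G k v w → v = w) ∧ X.card ≤ Y.card * (d + 1) ^ k := by
  classical
  obtain ⟨Y, hY, hmax⟩ := exists_max_image
    (X.powerset.filter (fun Y => ∀ v ∈ Y, ∀ w ∈ Y, near G k v w → v = w)) card
    ⟨∅, by simp⟩
  rw [mem_filter, mem_powerset] at hY
  refine ⟨Y, hY.1, hY.2, ?_⟩
  have h1 : X ⊆ Y.biUnion (fun v => univ.filter (fun w => near G k v w)) := by
    intro x hx
    by_contra hcon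
    have h2 : ∀ y ∈ Y, ¬ near G k y x := by
      intro y hy h
      apply hcon
      rw [mem_biUnion]
      exact ⟨y, hy, by rw [mem_filter]; exact ⟨mem_univ _, h⟩⟩
    have hxY : x ∉ Y := fun h => h2 x h (near.refl k x)
    have h3 := hmax (insert x Y) (by
      rw [mem_filter, mem_powerset]
      refine ⟨insert_subset hx hY.1, ?_⟩
      intro v hv w hw h
      rw [mem_insert] at hv hw
      rcases hv with rfl | hv
      · rcases hw with rfl | hw
        · rfl
        · exact absurd h.symm (h2 w hw)
      · rcases hw with rfl | hw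
        · exact absurd h (h2 v hv)
        · exact hY.2 v hv w hw h)
    rw [card_insert_of_notMem hxY] at h3
    omega
  exact (card_le_card h1).trans (card_biUnion_le_card_mul _ _ _ fun v _ => near_card hd k v)

/-- the stars at the vertices of `S` -/
def star (G : SimpleGraph V) (S : Finset V) : SimpleGraph V where
  Adj v w := G.Adj v w ∧ (v ∈ S ∨ w ∈ S)
  symm := ⟨fun v w h => ⟨h.1.symm, h.2.symm⟩⟩
  loopless := ⟨fun v h => G.loopless.irrefl v h.1⟩

theorem star_acyclic {S : Finset V} (hS : ∀ v ∈ S, ∀ w ∈ S, near G 4 v w → v = w) : (star G S).IsAcyclic := by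
  classical
  intro v c hc
  have h1 : ∃ y ∈ c.support, y ∉ S := by
    by_cases hv : v ∈ S
    · cases c with
      | nil => exact absurd hc SimpleGraph.Walk.IsCycle.not_of_nil
      | cons h q =>
        rename_i w
        refine ⟨w, by simp, ?_⟩
        intro hw
        have := hS v hv w hw ((near.adj h.1).mono (by omega))
        exact h.ne this
    · exact ⟨v, c.start_mem_support, hv⟩
  obtain ⟨y, hy, hyS⟩ := h1
  have h2 := hc.ncard_neighborSet_toSubgraph_eq_two hy
  have h3 : (c.toSubgraph.neighborSet y).ncard ≤ 1 := by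
    rw [Set.ncard_le_one]
    intro a ha b hb
    have ha' : (star G S).Adj y a := c.toSubgraph.adj_sub ha
    have hb' : (star G S).Adj y b := c.toSubgraph.adj_sub hb
    exact hS a (ha'.2.resolve_left hyS) b (hb'.2.resolve_left hyS)
      (((near.adj ha'.1.symm).trans (near.adj hb'.1)).mono (by omega))
  omega

/-- every spanning tree can be rooted -/
theorem exists_RT {T : SimpleGraph V} (hT : T.IsTree) (r : V) : ∃ R : RT V, R.r = r ∧ R.gr = T := by
  classical
  have hex : ∀ v, v ≠ r → ∃ w, T.Adj v w ∧ T.dist v r = T.dist w r + 1 := by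
    intro v hv
    obtain ⟨p, hp⟩ := (hT.connected v r).exists_walk_length_eq_dist
    cases p with
    | nil => exact absurd rfl hv
    | cons h q =>
      rename_i w
      refine ⟨w, h, ?_⟩
      rw [SimpleGraph.Walk.length_cons] at hp
      have h1 := SimpleGraph.dist_le q
      obtain ⟨q', hq'⟩ := (hT.connected w r).exists_walk_length_eq_dist
      have h2 := SimpleGraph.dist_le (SimpleGraph.Walk.cons h q')
      rw [SimpleGraph.Walk.length_cons] at h2
      omega
  choose! f hf1 hf2 using hex
  let R : RT V := 
    { r := r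
      p := fun v => if v = r then r else f v
      dep := fun v => T.dist v r
      p_r := by simp
      dep_r := by simp
      dep_p := by
        intro v hv
        rw [if_neg hv]
        exact hf2 v hv }
  refine ⟨R, rfl, ?_⟩
  have hle : R.gr ≤ T := by
    intro v w h
    rcases h with ⟨h1, h2⟩ | ⟨h1, h2⟩
    · have h3 : R.p v = f v := if_neg h1
      rw [← h2, h3]
      exact hf1 v h1
    · have h3 : R.p w = f w := if_neg h1
      rw [← h2, h3]
      exact (hf1 w h1).symm
  have hm := SimpleGraph.isTree_iff_minimal_connected.1 hT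
  exact le_antisymm hle (hm.2 R.connected hle)

instance : Finite (RT V) := by
  apply Finite.of_injective (fun R : RT V => (R.r, R.p))
  intro R R' h
  rw [Prod.mk.injEq] at h
  apply RT.ext_gr h.1
  ext v w
  simp only [RT.gr_adj, h.1, h.2]

end Pool.Agent.Helper38K9.ST
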